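import Mathlib

/-! Independent families of forms and their weights. -/

namespace Pool.Agent.Lib.MP_651af7_nt.Sn

open Finset Module

variable {k R : Type} [Field k] [CommRing R] [Algebra k R]

/-- The forms of level `m` that are sums of products of `a j` elements of `U j`. -/
def Vm {ι : Type} [Fintype ι] (B : Submodule k R) (U : ι → Submodule k R) (m : ℕ) (a : ι → ℕ) :
    Submodule k R := (∏ j, U j ^ a j) * B ^ (m - ∑ j, a j)

/-- The weights `a i` are carried by an independent family. -/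
def Adm {ι : Type} [Fintype ι] (B : Submodule k R) (U : ι → Submodule k R) (m : ℕ) {H : ℕ}
    (a : Fin H → ι → ℕ) : Prop :=
  (∀ i, ∑ j, a i j ≤ m) ∧ ∃ v : Fin H → R, LinearIndependent k v ∧ ∀ i, v i ∈ Vm B U m (a i)

theorem algA_sup {v : R} {τ : Type} {T : Set τ} {W : τ → Submodule k R} {N : Submodule k R}
    (h : v ∈ ⨆ t ∈ T, W t) (hv : v ∉ N) : ∃ t ∈ T, ∃ x ∈ W t, x ∉ N := by
  by_contra c
  refine hv (iSup₂_le (a := N) (fun t ht x hx => ?_) h)
  by_contra r
  exact c ⟨t, ht, x, hx, r⟩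

theorem algA_step {H : ℕ} {w : Fin H → R} (hw : LinearIndependent k w) (i : Fin H) {x : R}
    (hx : x ∉ Submodule.span k (w '' (Set.univ \ {i}))) :
    LinearIndependent k (Function.update w i x) := by
  have h1 : LinearIndepOn k (Function.update w i x) (Set.univ \ {i}) :=
    (hw.linearIndepOn _).congr fun j hj => (Function.update_of_ne hj.2 _ _).symm
  have h2 : Function.update w i x '' (Set.univ \ {i}) = w '' (Set.univ \ {i}) :=
    Set.image_congr fun j hj => Function.update_of_ne hj.2 _ _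
  have h3 := (linearIndepOn_insert (s := Set.univ \ {i}) (a := i) (by simp)).2
    ⟨h1, by rwa [h2, Function.update_self]⟩
  rwa [Set.insert_sdiff_singleton, Set.insert_eq_of_mem (Set.mem_univ _),
    linearIndepOn_univ_iff] at h3

theorem exchange {H : ℕ} {v : Fin H → R} (hv : LinearIndependent k v) {τ : Type}
    (T : Fin H → Set τ) (W : τ → Submodule k R) (h : ∀ i, v i ∈ ⨆ t ∈ T i, W t) :
    ∃ (t : Fin H → τ) (w : Fin H → R), LinearIndependent k w ∧ ∀ i, t i ∈ T i ∧ w i ∈ W (t i) := by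
  have key : ∀ s : Finset (Fin H), ∃ w : Fin H → R, LinearIndependent k w ∧
      (∀ i ∈ s, ∃ t ∈ T i, w i ∈ W t) ∧ ∀ i, i ∉ s → w i = v i := by
    intro s
    induction s using Finset.induction_on with
    | empty => exact ⟨v, hv, by simp, fun _ _ => rfl⟩
    | insert i s hi ih =>
      obtain ⟨w, h1, h2, h3⟩ := ih
      obtain ⟨t, ht, x, hx, hn⟩ := algA_sup (h i) (h3 i hi ▸ h1.notMem_span i)
      rw [Set.compl_eq_univ_sdiff] at hn
      refine ⟨Function.update w i x, algA_step h1 i hn, fun j hj => ?_, fun j hj => ?_⟩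
      · by_cases c : j = i
        · subst c
          exact ⟨t, ht, by rwa [Function.update_self]⟩
        · rw [Function.update_of_ne c]
          exact h2 j ((mem_insert.1 hj).resolve_left c)
      · rw [mem_insert, not_or] at hj
        rw [Function.update_of_ne hj.1, h3 j hj.2]
  obtain ⟨w, h1, h2, -⟩ := key univ
  choose t ht hw using fun i => h2 i (mem_univ i)
  exact ⟨t, w, h1, fun i => ⟨ht i, hw i⟩⟩

theorem vm_le {ι : Type} [Fintype ι] {B : Submodule k R} {U : ι → Submodule k R}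
    (hU : ∀ j, U j ≤ B) {m : ℕ} {a : ι → ℕ} (ha : ∑ j, a j ≤ m) : Vm B U m a ≤ B ^ m := by
  have e : B ^ m = (∏ j, B ^ a j) * B ^ (m - ∑ j, a j) := by
    rw [prod_pow_eq_pow_sum, ← pow_add, Nat.add_sub_cancel' ha]
  rw [e]
  exact mul_le_mul_left (prod_le_prod' fun j _ => pow_le_pow_left' (hU j) _) _

theorem algb_drop {ι : Type} [Fintype ι] {B : Submodule k R} {U : ι → Submodule k R}
    (hU : ∀ j, U j ≤ B) {m : ℕ} {a b : ι → ℕ} (ha : ∑ j, a j ≤ m) (hb : ∀ j, b j ≤ a j) :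
    Vm B U m a ≤ Vm B U m b := by
  have h1 : ∑ j, a j = ∑ j, b j + ∑ j, (a j - b j) := by
    rw [← sum_add_distrib]
    exact sum_congr rfl fun j _ => (Nat.add_sub_cancel' (hb j)).symm
  have h2 : ∏ j, U j ^ a j = (∏ j, U j ^ b j) * ∏ j, U j ^ (a j - b j) := by
    rw [← prod_mul_distrib]
    exact prod_congr rfl fun j _ => by rw [← pow_add, Nat.add_sub_cancel' (hb j)]
  have h3 := vm_le hU (m := m - ∑ j, b j) (a := fun j => a j - b j) (by omega)
  rw [Vm] at h3
  rw [Vm, Vm, h2, mul_assoc, h1, Nat.sub_add_eq]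
  exact mul_le_mul' le_rfl h3

theorem algb_single {ι : Type} [Fintype ι] [DecidableEq ι] (U : ι → Submodule k R) (j : ι)
    (s : ℕ) : ∏ i, U i ^ (Pi.single j s : ι → ℕ) i = U j ^ s := by
  rw [prod_eq_single j (fun i _ h => by rw [Pi.single_eq_of_ne h, pow_zero])
    (fun h => absurd (mem_univ j) h), Pi.single_eq_same]

theorem algb_step {ι : Type} [Fintype ι] [DecidableEq ι] {B : Submodule k R}
    {U : ι → Submodule k R} {P : ι → Prop} {e m : ℕ}
    (rel : B ^ (e + 1) ≤ (⨆ j : {j // P j}, U j) * B ^ e) {a : ι → ℕ}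
    (ha : ∑ j, a j + e < m) :
    Vm B U m a ≤ ⨆ j : {j // P j}, Vm B U m (a + Pi.single j.1 1) := by
  obtain ⟨n, hn⟩ : ∃ n, m = ∑ j, a j + (e + 1 + n) := ⟨m - ∑ j, a j - e - 1, by omega⟩
  have h1 : Vm B U m a ≤ (∏ j, U j ^ a j) * ((⨆ j : {j // P j}, U j) * B ^ e * B ^ n) := by
    rw [Vm, hn, Nat.add_sub_cancel_left, pow_add]
    exact mul_le_mul' le_rfl (mul_le_mul' rel le_rfl)
  refine h1.trans ?_
  rw [mul_assoc, ← pow_add, Submodule.iSup_mul, Submodule.mul_iSup]
  refine iSup_mono fun j => le_of_eq ?_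
  have h2 : m - ∑ i, (a + Pi.single j.1 1 : ι → ℕ) i = e + n := by
    simp only [Pi.add_apply, sum_add_distrib, sum_pi_single', mem_univ, if_true]
    omega
  rw [Vm, h2, ← mul_assoc]
  simp only [Pi.add_apply, pow_add (U _), prod_mul_distrib, algb_single, pow_one]

theorem algb_full {ι : Type} [Fintype ι] {B : Submodule k R}
    {U : ι → Submodule k R} {P : ι → Prop} {e m : ℕ}
    (rel : B ^ (e + 1) ≤ (⨆ j : {j // P j}, U j) * B ^ e) (n : ℕ) : ∀ a : ι → ℕ,
    ∑ j, a j ≤ m → m ≤ ∑ j, a j + n → Vm B U m a ≤ ⨆ b ∈ {b : ι → ℕ | (∀ j, a j ≤ b j) ∧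
      (∀ j, ¬ P j → b j = a j) ∧ ∑ j, b j ≤ m ∧ m ≤ ∑ j, b j + e}, Vm B U m b := by
  classical
  induction n with
  | zero =>
    intro a h1 h2
    exact le_iSup₂_of_le a ⟨fun _ => le_rfl, fun _ _ => rfl, h1, by omega⟩ le_rfl
  | succ n ih =>
    intro a h1 h2
    by_cases h3 : m ≤ ∑ j, a j + e
    · exact le_iSup₂_of_le a ⟨fun _ => le_rfl, fun _ _ => rfl, h1, h3⟩ le_rfl
    refine (algb_step rel (not_le.1 h3)).trans (iSup_le fun j => ?_)
    have h4 : ∑ i, (a + Pi.single j.1 1 : ι → ℕ) i = ∑ i, a i + 1 := by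
      simp only [Pi.add_apply, sum_add_distrib, sum_pi_single', mem_univ, if_true]
    refine (ih _ (by omega) (by omega)).trans (iSup₂_le fun b hb => le_iSup₂_of_le b
      ⟨fun i => le_self_add.trans (hb.1 i), fun i hi => ?_, hb.2.2⟩ le_rfl)
    rw [hb.2.1 i hi, Pi.add_apply, Pi.single_eq_of_ne (fun h : i = j.1 => hi (h ▸ j.2)),
      add_zero]

theorem algb_cnt {H m : ℕ} {B : Submodule k R} (hB : ∀ t, FiniteDimensional k (B ^ t :))
    {w : Fin H → R} (hw : LinearIndependent k w) (x : R) (c : Fin H → ℕ) (hc : ∀ i, c i ≤ m)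
    (h : ∀ i s, s ≤ c i → w i ∈ Submodule.span k {x} ^ s * B ^ (m - s)) :
    ∑ i, c i ≤ ∑ t ∈ range m, finrank k (B ^ t :) := by
  have h1 : ∀ i, c i = ∑ t ∈ range m, if t < c i then 1 else 0 := fun i => by
    rw [← card_filter]
    have : filter (fun t => t < c i) (range m) = range (c i) := by
      ext t
      have := hc i
      simp only [mem_filter, mem_range]
      omega
    rw [this, card_range]
  rw [sum_congr rfl fun i _ => h1 i, sum_comm, ← sum_range_reflect (fun t => finrank k (B ^ t :))]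
  refine sum_le_sum fun t _ => ?_
  have := hB (m - 1 - t)
  have h2 : ∀ i : {i // t < c i}, w i ∈
      (B ^ (m - 1 - t)).map (LinearMap.mulLeft k (x ^ (t + 1))) := fun i => by
    have h3 := h i (t + 1) i.2
    rw [Submodule.span_pow, Set.singleton_pow, Submodule.mem_span_singleton_mul,
      show m - (t + 1) = m - 1 - t by omega] at h3
    exact h3
  have h4 : LinearIndependent k fun i : {i // t < c i} => (⟨w i, h2 i⟩ :
      (B ^ (m - 1 - t)).map (LinearMap.mulLeft k (x ^ (t + 1)))) :=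
    LinearIndependent.of_comp (Submodule.subtype _) (hw.comp _ Subtype.val_injective)
  rw [← card_filter, ← Fintype.card_subtype]
  exact h4.fintype_card_le_finrank.trans (Submodule.finrank_map_le _ _)

/- Work with the index type `Fin q ⊕ Fin r` and the family `Sum.elim U fun i => span k {g i}`.
Downward induction on `m - ∑ a`; `exchange`; count `∑ i, b i ρ = ∑ t, card {i | t < b i ρ}`. -/
theorem aug {q r e m H : ℕ} {B : Submodule k R} (hB : ∀ t, FiniteDimensional k (B ^ t :))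
    {U : Fin q → Submodule k R} (hU : ∀ j, U j ≤ B) (Z : Finset (Fin q)) {g : Fin r → R}
    (hg : ∀ i, g i ∈ B)
    (rel : B ^ (e + 1) ≤ ((⨆ j ∈ Z, U j) ⊔ Submodule.span k (Set.range g)) * B ^ e)
    {a : Fin H → Fin q → ℕ} (ha : Adm B U m a) :
    ∃ a' : Fin H → Fin q → ℕ, Adm B U m a' ∧ (∀ i, ∀ j ∈ Z, a i j ≤ a' i j) ∧
      m * H ≤ ∑ j ∈ Z, ∑ i, a' i j + r * ∑ t ∈ range m, finrank k (B ^ t :) + e * H := by
  classical
  obtain ⟨ha1, v, hv, ha2⟩ := ha
  obtain ⟨U', h1, h2⟩ : ∃ U' : Fin q ⊕ Fin r → Submodule k R, (∀ j, U' (.inl j) = U j) ∧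
      ∀ i, U' (.inr i) = Submodule.span k {g i} :=
    ⟨Sum.elim U fun i => Submodule.span k {g i}, fun _ => rfl, fun _ => rfl⟩
  have hU' : ∀ j, U' j ≤ B := by
    rintro (j | i)
    · exact h1 j ▸ hU j
    · exact h2 i ▸ (Submodule.span_singleton_le_iff_mem _ _).2 (hg i)
  have e1 : ∀ c : Fin q → ℕ, Vm B U' m (Sum.elim c 0) = Vm B U m c := fun c => by
    simp [Vm, Fintype.prod_sum_type, Fintype.sum_sum_type, h1]
  have rel' : B ^ (e + 1) ≤
      (⨆ j : {j : Fin q ⊕ Fin r // ∀ i, j = .inl i → i ∈ Z}, U' j) * B ^ e := by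
    refine rel.trans (mul_le_mul' (sup_le (iSup₂_le fun j hj => ?_)
      (Submodule.span_le.2 ?_)) le_rfl)
    · exact le_iSup_of_le ⟨.inl j, fun i hi => Sum.inl_injective hi ▸ hj⟩ (h1 j).ge
    · rintro _ ⟨i, rfl⟩
      refine Submodule.mem_iSup_of_mem ⟨.inr i, fun _ hi => absurd hi Sum.inr_ne_inl⟩ ?_
      exact h2 i ▸ Submodule.mem_span_singleton_self _
  have h3 : ∀ i j, (if j ∈ Z then a i j else 0) ≤ a i j := fun i j => by
    split_ifs
    exacts [le_rfl, Nat.zero_le _]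
  have h30 : ∀ i, v i ∈ Vm B U' m (Sum.elim (fun j => if j ∈ Z then a i j else 0) 0) :=
    fun i => by
      rw [e1]
      exact algb_drop hU (ha1 i) (h3 i) (ha2 i)
  have h31 := fun i => algb_full rel' m (Sum.elim (fun j => if j ∈ Z then a i j else 0) 0)
    (by simpa [Fintype.sum_sum_type] using (sum_le_sum fun j _ => h3 i j).trans (ha1 i))
    (Nat.le_add_left _ _) (h30 i)
  obtain ⟨b, w, hw, hb⟩ := exchange hv _ _ h31
  have h4 : ∀ i, ∑ j, b i (.inl j) + ∑ ρ, b i (.inr ρ) ≤ m := fun i =>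
    (Fintype.sum_sum_type (b i)).symm.trans_le (hb i).1.2.2.1
  refine ⟨fun i j => b i (.inl j), ⟨fun i => le_self_add.trans (h4 i), w, hw, fun i => ?_⟩,
    fun i j hj => by simpa [hj] using (hb i).1.1 (.inl j), ?_⟩
  · rw [← e1]
    refine algb_drop hU' (hb i).1.2.2.1 ?_ (hb i).2
    rintro (j | ρ)
    exacts [le_rfl, Nat.zero_le _]
  have h5 : ∀ i, m ≤ ∑ j ∈ Z, b i (.inl j) + ∑ ρ, b i (.inr ρ) + e := fun i => by
    have h6 := (hb i).1.2.2.2
    rw [Fintype.sum_sum_type, ← sum_subset (subset_univ Z) fun j _ hj => ?_] at h6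
    · exact h6
    · simpa [hj] using (hb i).1.2.1 (.inl j) fun h => hj (h j rfl)
  have h7 : ∀ ρ, ∑ i, b i (.inr ρ) ≤ ∑ t ∈ range m, finrank k (B ^ t :) := fun ρ => by
    have h8 : ∀ i, b i (.inr ρ) ≤ m := fun i => (single_le_sum (fun _ _ => Nat.zero_le _)
      (mem_univ _)).trans (hb i).1.2.2.1
    refine algb_cnt hB hw (g ρ) _ h8 fun i s hs => ?_
    have h9 := algb_drop hU' (b := Pi.single (.inr ρ) s) (hb i).1.2.2.1 (fun j => by
      rcases eq_or_ne j (.inr ρ) with rfl | hj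
      · rwa [Pi.single_eq_same]
      · rw [Pi.single_eq_of_ne hj]
        exact Nat.zero_le _) (hb i).2
    rwa [Vm, algb_single, h2, sum_pi_single', if_pos (mem_univ _)] at h9
  have h10 := sum_le_sum fun i (_ : i ∈ univ) => h5 i
  have h11 := sum_le_sum fun ρ (_ : ρ ∈ univ) => h7 ρ
  simp only [sum_add_distrib, sum_const, card_univ, Fintype.card_fin, smul_eq_mul] at h10 h11
  rw [sum_comm (s := univ) (t := Z), sum_comm (s := (univ : Finset (Fin H)))] at h10
  rw [mul_comm m, mul_comm e]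
  exact h10.trans (Nat.add_le_add_right (Nat.add_le_add_left h11 _) _)

end Pool.Agent.Lib.MP_651af7_nt.Sn
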