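import Pool.Agent.Lib.MP_651af7_nt.Av.Noe

/-! Dimension theory for homogeneous ideals. -/

namespace Pool.Agent.Lib.MP_651af7_nt.Sn

open MvPolynomial

variable {k : Type} [Field k] {N : ℕ}

/-- The classes of the forms of degree `d`. -/
noncomputable def Bd (I : Ideal (MvPolynomial (Fin N) k)) (d : ℕ) :
    Submodule k (MvPolynomial (Fin N) k ⧸ I) :=
  (homogeneousSubmodule (Fin N) k d).map (Ideal.Quotient.mkₐ k I).toLinearMap

theorem mem_bd {I : Ideal (MvPolynomial (Fin N) k)} {d : ℕ} {z : MvPolynomial (Fin N) k ⧸ I} :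
    z ∈ Bd I d ↔ ∃ P : MvPolynomial (Fin N) k, P.IsHomogeneous d ∧ Ideal.Quotient.mk I P = z :=
  Iff.rfl

theorem bd_pow (I : Ideal (MvPolynomial (Fin N) k)) (d t : ℕ) : Bd I d ^ t = Bd I (d * t) := by
  rw [Bd, Bd, ← Submodule.map_pow, ← homogeneousSubmodule_one_pow k d, ← pow_mul,
    homogeneousSubmodule_one_pow]

theorem bd_fin (I : Ideal (MvPolynomial (Fin N) k)) (d : ℕ) : FiniteDimensional k (Bd I d) := by
  exact Module.Finite.iff_fg.mpr ((homogeneousSubmodule_fg (Fin N) k d).map _)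

theorem dimA_trdeg (k A : Type) [Field k] [CommRing A] [IsDomain A] [Algebra k A]
    [Algebra.FiniteType k A] {n : ℕ} (hn : ringKrullDim A = n) : Algebra.trdeg k A = n := by
  obtain ⟨s, g, hinj, hint⟩ := exists_integral_inj_algHom_of_fg k A
  let : Algebra (MvPolynomial (Fin s) k) A := g.toRingHom.toAlgebra
  have : IsScalarTower k (MvPolynomial (Fin s) k) A :=
    IsScalarTower.of_algebraMap_eq fun c => (g.commutes c).symm
  have : FaithfulSMul (MvPolynomial (Fin s) k) A :=
    (faithfulSMul_iff_algebraMap_injective _ _).2 hinj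
  have : Algebra.IsIntegral (MvPolynomial (Fin s) k) A := ⟨hint⟩
  have h1 : Algebra.trdeg k A = s := by
    rw [← trdeg_add_eq k (MvPolynomial (Fin s) k) (A := A),
      trdeg_eq_zero (R := MvPolynomial (Fin s) k) (A := A), MvPolynomial.trdeg_of_isDomain]
    simp
  have h2 : ringKrullDim (MvPolynomial (Fin s) k) = s := by
    rw [MvPolynomial.ringKrullDim_of_isNoetherianRing, ringKrullDim_eq_zero_of_field]
    simp
  have h3 : ringKrullDim A = s := by
    rw [← h2]
    refine le_antisymm (Order.krullDim_le_of_strictMono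
      (PrimeSpectrum.comap (algebraMap (MvPolynomial (Fin s) k) A)) fun I J h =>
        Ideal.IsIntegral.comap_lt_comap h) (iSup_le fun l => ?_)
    obtain ⟨P, hP, hP'⟩ := Ideal.exists_ideal_over_prime_of_isIntegral_of_isDomain (S := A)
      l.head.asIdeal (((RingHom.injective_iff_ker_eq_bot _).1
        (FaithfulSMul.algebraMap_injective (MvPolynomial (Fin s) k) A)).le.trans bot_le)
    obtain ⟨L, hL, -⟩ := Ideal.exists_ltSeries_of_hasGoingUp l P (lo := ⟨hP'.symm⟩)
    rw [← hL]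
    exact Order.LTSeries.length_le_krullDim L
  have h4 : s = n := by exact_mod_cast h3.symm.trans hn
  rw [h1, h4]

theorem indep (I : Ideal (MvPolynomial (Fin N) k)) [I.IsPrime] {n : ℕ}
    (hn : ringKrullDim (MvPolynomial (Fin N) k ⧸ I) = n) :
    ∃ c : Fin n → Fin N, AlgebraicIndependent k fun i => Ideal.Quotient.mk I (X (c i)) := by
  have h1 := dimA_trdeg k (MvPolynomial (Fin N) k ⧸ I) hn
  have h2 : Algebra.adjoin k (Set.range fun i : Fin N => Ideal.Quotient.mk I (X i)) = ⊤ := by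
    have h := AlgHom.map_adjoin (Ideal.Quotient.mkₐ k I)
      (Set.range (X : Fin N → MvPolynomial (Fin N) k))
    rw [adjoin_range_X, Algebra.map_top, ← Set.range_comp,
      (AlgHom.range_eq_top _).mpr (Ideal.Quotient.mkₐ_surjective k I)] at h
    exact h.symm
  have : Algebra.IsAlgebraic
      (Algebra.adjoin k (Set.range fun i : Fin N => Ideal.Quotient.mk I (X i)))
      (MvPolynomial (Fin N) k ⧸ I) :=
    ⟨fun x => isAlgebraic_algebraMap (⟨x, h2 ▸ Algebra.mem_top⟩ :
      Algebra.adjoin k (Set.range fun i : Fin N => Ideal.Quotient.mk I (X i)))⟩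
  obtain ⟨t, ht, hb⟩ := exists_isTranscendenceBasis_subset (R := k)
    (Set.range fun i : Fin N => Ideal.Quotient.mk I (X i))
  have h3 := hb.cardinalMk_eq_trdeg
  rw [h1, Cardinal.mk_eq_nat_iff] at h3
  obtain ⟨e⟩ := h3
  choose c hc using fun i : Fin n => ht (e.symm i).2
  refine ⟨c, ?_⟩
  have h4 := hb.1.comp e.symm e.symm.injective
  rwa [show (fun i => Ideal.Quotient.mk I (X (c i))) = (Subtype.val ∘ e.symm) from funext hc]

theorem cutB_top {p q : Ideal (MvPolynomial (Fin N) k)} (hp : ∀ i, X i ∈ p) (hpq : p ≤ q)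
    (hq : q ≠ ⊤) : q ≤ p := by
  have h : ∀ f : MvPolynomial (Fin N) k, f - C (constantCoeff f) ∈ p := by
    intro f
    induction f using MvPolynomial.induction_on with
    | C a => simp
    | add f g hf hg =>
      have := p.add_mem hf hg
      rwa [map_add, map_add, ← sub_add_sub_comm] at *
    | mul_X f i _ => simpa using p.mul_mem_left f (hp i)
  intro f hf
  have h1 : C (constantCoeff f) ∈ q := by simpa using q.sub_mem hf (hpq (h f))
  by_cases h0 : constantCoeff f = 0
  · simpa [h0] using h f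
  · exact absurd (q.eq_top_of_isUnit_mem h1 ((IsUnit.mk0 _ h0).map C)) hq

theorem cutB_min {J p : Ideal (MvPolynomial (Fin N) k)}
    (hJ : ∀ P ∈ J, ∀ e, homogeneousComponent e P ∈ J) (hp : p ∈ J.minimalPrimes) :
    p ≤ RingHom.ker (constantCoeff : MvPolynomial (Fin N) k →+* k) := by
  let _ := MvPolynomial.gradedAlgebra (σ := Fin N) (R := k)
  have hd : ∀ (f : MvPolynomial (Fin N) k) (e : ℕ),
      (DirectSum.decompose (homogeneousSubmodule (Fin N) k) f e : MvPolynomial (Fin N) k) =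
        homogeneousComponent e f := fun f e => MvPolynomial.decomposition.decompose'_apply f e
  have hJ' : J.IsHomogeneous (homogeneousSubmodule (Fin N) k) := fun e f hf =>
    (hd f e).symm ▸ hJ f hf e
  have h1 : J ≤ (p.homogeneousCore (homogeneousSubmodule (Fin N) k)).toIdeal :=
    hJ'.toIdeal_homogeneousCore_eq_self.ge.trans (Ideal.homogeneousCore_mono _ hp.1.2)
  have h2 := hp.2 ⟨hp.1.1.homogeneousCore, h1⟩ (Ideal.toIdeal_homogeneousCore_le _ _)
  intro f hf
  have h3 : homogeneousComponent 0 f ∈ p := hd f 0 ▸ Ideal.toIdeal_homogeneousCore_le _ _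
    ((p.homogeneousCore (homogeneousSubmodule (Fin N) k)).isHomogeneous 0 (h2 hf))
  rw [homogeneousComponent_zero] at h3
  by_contra h0
  exact hp.1.1.ne_top (p.eq_top_of_isUnit_mem h3 ((IsUnit.mk0 _ h0).map C))

theorem cutB_hom {J : Ideal (MvPolynomial (Fin N) k)}
    (hJ : ∀ P ∈ J, ∀ e, homogeneousComponent e P ∈ J) {G : MvPolynomial (Fin N) k} {d : ℕ}
    (hG : G.IsHomogeneous d) :
    ∀ P ∈ J ⊔ Ideal.span {G}, ∀ e, homogeneousComponent e P ∈ J ⊔ Ideal.span {G} := by
  intro P hP e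
  obtain ⟨j, hj, s, hs, rfl⟩ := Submodule.mem_sup.mp hP
  obtain ⟨c, rfl⟩ := Ideal.mem_span_singleton'.mp hs
  rw [map_add]
  refine Submodule.add_mem_sup (hJ j hj e) ?_
  rcases Av.comp_mul_hom hG c e with h | ⟨n, -, h⟩ <;> rw [h]
  · exact Ideal.zero_mem _
  · exact Ideal.mul_mem_left _ _ (Ideal.mem_span_singleton_self G)

theorem cutB_drop {J : Ideal (MvPolynomial (Fin N) k)} {G : MvPolynomial (Fin N) k} {r : ℕ}
    (hG : ∀ p ∈ J.minimalPrimes, (∃ i, X i ∉ p) → G ∉ p)
    (h : ringKrullDim (MvPolynomial (Fin N) k ⧸ J) ≤ (r + 1 : ℕ)) :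
    ringKrullDim (MvPolynomial (Fin N) k ⧸ J ⊔ Ideal.span {G}) ≤ r := by
  rw [ringKrullDim_quotient] at h ⊢
  refine iSup_le fun l => ?_
  have hl : ∀ q : PrimeSpectrum.zeroLocus (R := MvPolynomial (Fin N) k) ↑(J ⊔ Ideal.span {G}),
      J ≤ q.1.asIdeal ∧ G ∈ q.1.asIdeal := fun q =>
    ⟨fun x hx => q.2 (Ideal.mem_sup_left hx),
      q.2 (Ideal.mem_sup_right (Ideal.mem_span_singleton_self G))⟩
  obtain ⟨p, hp, hp'⟩ := Ideal.exists_minimalPrimes_le (J := l.head.1.asIdeal) (hl _).1
  by_cases hX : ∃ i, X i ∉ p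
  · let φ : PrimeSpectrum.zeroLocus (R := MvPolynomial (Fin N) k) ↑(J ⊔ Ideal.span {G}) →
        PrimeSpectrum.zeroLocus (R := MvPolynomial (Fin N) k) ↑J := fun q => ⟨q.1, (hl q).1⟩
    let p' : PrimeSpectrum.zeroLocus (R := MvPolynomial (Fin N) k) ↑J := ⟨⟨p, hp.1.1⟩, hp.1.2⟩
    have hlt : p' < (l.map φ fun _ _ => id).head := lt_of_le_of_ne hp' fun e =>
      hG p hp hX (by
        have e' : p = l.head.1.asIdeal := congrArg (fun q => q.1.asIdeal) e
        exact e' ▸ (hl _).2)
    have h1 := (Order.LTSeries.length_le_krullDim ((l.map φ fun _ _ => id).cons p' hlt)).trans h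
    have h2 : ((l.map φ fun _ _ => id).cons p' hlt).length ≤ r + 1 := by exact_mod_cast h1
    have h3 : l.length ≤ r := by simpa using h2
    exact_mod_cast h3
  · push Not at hX
    have h0 : l.length = 0 := by
      by_contra h0
      have h1 : l.head < l.last := l.strictMono (Fin.pos_iff_ne_zero.mpr (by simpa using h0))
      exact h1.not_ge ((cutB_top hX (hp'.trans h1.le) l.last.1.2.ne_top).trans hp')
    rw [h0]
    exact_mod_cast Nat.zero_le r

theorem cut [Infinite k] {d : ℕ} (hd : 0 < d) (r : ℕ) (J : Ideal (MvPolynomial (Fin N) k))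
    (hJ : ∀ P ∈ J, ∀ e, homogeneousComponent e P ∈ J)
    (h : ringKrullDim (MvPolynomial (Fin N) k ⧸ J) ≤ r) :
    ∃ G : Fin r → MvPolynomial (Fin N) k, (∀ i, (G i).IsHomogeneous d) ∧
      ∀ i, X i ∈ (J ⊔ Ideal.span (Set.range G)).radical := by
  induction r generalizing J with
  | zero =>
    refine ⟨fun _ => 0, fun _ => isHomogeneous_zero _ _ _, fun i =>
      Ideal.radical_mono le_sup_left ?_⟩
    rw [← Ideal.sInf_minimalPrimes, Ideal.mem_sInf]
    intro p hp
    by_contra hX
    have hm := cutB_min hJ hp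
    let p' : PrimeSpectrum.zeroLocus (R := MvPolynomial (Fin N) k) ↑J := ⟨⟨p, hp.1.1⟩, hp.1.2⟩
    let m : PrimeSpectrum.zeroLocus (R := MvPolynomial (Fin N) k) ↑J :=
      ⟨⟨_, RingHom.ker_isPrime (constantCoeff : MvPolynomial (Fin N) k →+* k)⟩, hp.1.2.trans hm⟩
    have hlt : p' < m := lt_of_le_of_ne hm fun e => hX (by
      have e' : p = RingHom.ker constantCoeff := congrArg (fun q => q.1.asIdeal) e
      rw [e']
      simp [RingHom.mem_ker])
    rw [ringKrullDim_quotient] at h
    have h1 := (Order.LTSeries.length_le_krullDim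
      ((RelSeries.singleton _ m).cons p' hlt)).trans h
    have h2 : 0 + 1 ≤ 0 := by exact_mod_cast h1
    omega
  | succ r ih =>
    have : Finite {p // p ∈ J.minimalPrimes ∧ ∃ i, X i ∉ p} :=
      (J.finite_minimalPrimes_of_isNoetherianRing _).subset fun _ hp => hp.1
    obtain ⟨G, hG⟩ := Submodule.exists_forall_notMem_of_forall_ne_top
      (fun p : {p // p ∈ J.minimalPrimes ∧ ∃ i, X i ∉ p} =>
        (p.1.restrictScalars k).comap (homogeneousSubmodule (Fin N) k d).subtype) fun p hp => by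
      obtain ⟨i, hi⟩ := p.2.2
      have h1 : (X i ^ d : MvPolynomial (Fin N) k).IsHomogeneous d := isHomogeneous_X_pow i d
      exact hi (p.2.1.1.1.mem_of_pow_mem d (Submodule.eq_top_iff'.mp hp ⟨_, h1⟩))
    obtain ⟨G', h1, h2⟩ := ih _ (cutB_hom hJ G.2) (cutB_drop (fun p hp hX => hG ⟨p, hp, hX⟩) h)
    refine ⟨Fin.cons G.1 G', Fin.cases G.2 h1, fun i => ?_⟩
    rw [Fin.range_cons, Ideal.span_insert, ← sup_assoc]
    exact h2 i

theorem hom_sup {I : Ideal (MvPolynomial (Fin N) k)}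
    (hI : ∀ P ∈ I, ∀ e, homogeneousComponent e P ∈ I) {Y : Set (MvPolynomial (Fin N) k)}
    (hY : ∀ y ∈ Y, ∃ d, y.IsHomogeneous d) :
    ∀ P ∈ I ⊔ Ideal.span Y, ∀ e, homogeneousComponent e P ∈ I ⊔ Ideal.span Y := by
  have key : ∀ s ∈ Ideal.span Y, ∀ g e, homogeneousComponent e (g * s) ∈ Ideal.span Y := by
    intro s hs
    induction hs using Submodule.span_induction with
    | mem y hy =>
      intro g e
      obtain ⟨d, hd⟩ := hY y hy
      rcases Av.comp_mul_hom hd g e with h | ⟨n, -, h⟩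
      · rw [h]
        exact Ideal.zero_mem _
      · rw [h]
        exact Ideal.mul_mem_left _ _ (Ideal.subset_span hy)
    | zero => intro g e; simp
    | add x y _ _ hx hy =>
      intro g e
      rw [mul_add, map_add]
      exact Ideal.add_mem _ (hx g e) (hy g e)
    | smul a x _ hx =>
      intro g e
      rw [smul_eq_mul, ← mul_assoc]
      exact hx _ e
  intro P hP e
  obtain ⟨j, hj, s, hs, rfl⟩ := Submodule.mem_sup.mp hP
  rw [map_add]
  exact Submodule.add_mem_sup (hI j hj e) (by simpa using key s hs 1 e)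

theorem rel {I : Ideal (MvPolynomial (Fin N) k)}
    (hI : ∀ P ∈ I, ∀ e, homogeneousComponent e P ∈ I) {d : ℕ} (hd : 0 < d)
    {Y : Set (MvPolynomial (Fin N) k)} (hY : ∀ y ∈ Y, y.IsHomogeneous d)
    (h : ∀ i, X i ∈ (I ⊔ Ideal.span Y).radical) : ∃ e₀, ∀ e, e₀ ≤ e →
      Bd I d ^ (e + 1) ≤ Submodule.span k (Ideal.Quotient.mk I '' Y) * Bd I d ^ e := by
  obtain ⟨e₀, h0⟩ := Av.exists_deg_mem h
  refine ⟨e₀, fun e he => ?_⟩
  rw [bd_pow, bd_pow]
  have key : ∀ s ∈ Ideal.span Y, ∀ g,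
      Ideal.Quotient.mk I (homogeneousComponent (d * (e + 1)) (g * s)) ∈
        Submodule.span k (Ideal.Quotient.mk I '' Y) * Bd I (d * e) := by
    intro s hs
    induction hs using Submodule.span_induction with
    | mem y hy =>
      intro g
      rcases Av.comp_mul_hom (hY y hy) g (d * (e + 1)) with h | ⟨n, hn, h⟩
      · rw [h, map_zero]
        exact Submodule.zero_mem _
      · have h2 : n = d * e := by
          rw [mul_add_one] at hn
          omega
        rw [h, map_mul, mul_comm (Ideal.Quotient.mk I _), h2]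
        exact Submodule.mul_mem_mul (Submodule.subset_span ⟨y, hy, rfl⟩)
          (mem_bd.mpr ⟨_, homogeneousComponent_isHomogeneous _ _, rfl⟩)
    | zero => intro g; simp
    | add x y _ _ hx hy =>
      intro g
      rw [mul_add g, map_add, map_add]
      exact Submodule.add_mem _ (hx g) (hy g)
    | smul a x _ hx =>
      intro g
      rw [smul_eq_mul, ← mul_assoc]
      exact hx _
  intro z hz
  obtain ⟨P, hP, rfl⟩ := mem_bd.mp hz
  have h1 : e₀ ≤ d * (e + 1) := (he.trans (Nat.le_succ e)).trans (Nat.le_mul_of_pos_left _ hd)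
  obtain ⟨j, hj, s, hs, hf⟩ := Submodule.mem_sup.mp (h0 _ h1 P hP)
  rw [← homogeneousComponent_eq_self hP, ← hf, map_add, map_add,
    Ideal.Quotient.eq_zero_iff_mem.mpr (hI j hj _), zero_add]
  simpa using key s hs 1

end Pool.Agent.Lib.MP_651af7_nt.Sn
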