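import Mathlib

/-! Growth of the dimensions of the spaces of forms. -/

namespace Pool.Agent.Lib.MP_651af7_nt.Sn

open Finset Module

theorem grow_mem {k R ι : Type} [Field k] [CommRing R] [Algebra k R] {ξ : ι → R}
    {B : Submodule k R} (h : ∀ i, ξ i ∈ B) (a : ι → ℕ) (s : Finset ι) :
    ∏ i ∈ s, ξ i ^ a i ∈ B ^ ∑ i ∈ s, a i := by
  classical
  induction s using Finset.induction_on with
  | empty =>
    rw [prod_empty, sum_empty, pow_zero]
    exact Submodule.one_le.1 le_rfl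
  | insert i s hi ih =>
    rw [prod_insert hi, sum_insert hi, pow_add]
    exact Submodule.mul_mem_mul (Submodule.pow_mem_pow B (h i) _) ih

theorem grow_indep {k R : Type} [Field k] [CommRing R] [Algebra k R] {n : ℕ} {ξ : Fin n → R}
    (hξ : AlgebraicIndependent k ξ) :
    LinearIndependent k fun a : Fin n → ℕ => ∏ i, ξ i ^ a i := by
  have h1 := ((MvPolynomial.basisMonomials (Fin n) k).linearIndependent.map'
    (MvPolynomial.aeval ξ).toLinearMap (LinearMap.ker_eq_bot.2 hξ)).comp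
    (Finsupp.equivFunOnFinite.symm : (Fin n → ℕ) → Fin n →₀ ℕ) (Equiv.injective _)
  have h2 : (fun a : Fin n → ℕ => ∏ i, ξ i ^ a i) =
      ((MvPolynomial.aeval ξ).toLinearMap ∘ MvPolynomial.basisMonomials (Fin n) k) ∘
        (Finsupp.equivFunOnFinite.symm : (Fin n → ℕ) → Fin n →₀ ℕ) := by
    funext a
    simp [MvPolynomial.aeval_monomial, Finsupp.prod_fintype]
  rw [h2]
  exact h1

theorem box {k R : Type} [Field k] [CommRing R] [Algebra k R] {n : ℕ} {ξ : Fin (n + 1) → R}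
    (hξ : AlgebraicIndependent k ξ) {B : Submodule k R} (hB : ∀ t, FiniteDimensional k (B ^ t :))
    (h : ∀ i, ξ i ∈ B) (μ : ℕ) :
    μ ^ (n + 1) ≤ ∑ t ∈ range ((n + 1) * μ), finrank k (B ^ t :) := by
  classical
  have hc : μ ^ (n + 1) = (Fintype.piFinset fun _ : Fin (n + 1) => range μ).card := by
    simp [Fintype.card_piFinset]
  rw [hc, card_eq_sum_card_fiberwise (f := fun a : Fin (n + 1) → ℕ => ∑ i, a i)
    (t := range ((n + 1) * μ))]
  · refine sum_le_sum fun t _ => ?_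
    have := hB t
    set F := (Fintype.piFinset fun _ : Fin (n + 1) => range μ).filter fun a => ∑ i, a i = t
    have hm : ∀ a : F, ∏ i, ξ i ^ a.1 i ∈ B ^ t := fun a => by
      have := grow_mem h a.1 univ
      rwa [(mem_filter.1 a.2).2] at this
    have hi : LinearIndependent k fun a : F => (⟨_, hm a⟩ : (B ^ t :)) :=
      LinearIndependent.of_comp (B ^ t).subtype
        ((grow_indep hξ).comp Subtype.val Subtype.val_injective)
    simpa using hi.fintype_card_le_finrank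
  · intro a ha
    have h1 : ∀ i, a i < μ := fun i => mem_range.1 (Fintype.mem_piFinset.1 ha i)
    have h2 : ∑ i, a i < ∑ _i : Fin (n + 1), μ := sum_lt_sum_of_nonempty univ_nonempty
      fun i _ => h1 i
    simpa using h2

theorem grow_step {x β : ℝ} (hx : 0 < x) (hβ : 0 ≤ β) :
    x ^ β * (1 + β / (x + 1)) ≤ (x + 1) ^ β := by
  have h1 : 0 < (x + 1) / x := by positivity
  have h2 : 1 / (x + 1) ≤ Real.log ((x + 1) / x) := by
    have := Real.one_sub_inv_le_log_of_pos h1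
    have e : 1 - ((x + 1) / x)⁻¹ = 1 / (x + 1) := by
      field_simp
      ring
    rwa [e] at this
  have h3 : 1 + β / (x + 1) ≤ ((x + 1) / x) ^ β := by
    rw [Real.rpow_def_of_pos h1]
    have := Real.add_one_le_exp (Real.log ((x + 1) / x) * β)
    have h4 := mul_le_mul_of_nonneg_right h2 hβ
    rw [one_div_mul_eq_div] at h4
    linarith
  calc x ^ β * (1 + β / (x + 1)) ≤ x ^ β * ((x + 1) / x) ^ β := by gcongr
    _ = (x + 1) ^ β := by
      rw [← Real.mul_rpow hx.le h1.le, mul_div_cancel₀ _ hx.ne']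

/- Otherwise `Φ (m + 1) ≤ Φ m * (1 + β / (m - e))` for large `m`, `β < n + 1`; with Bernoulli
`Φ m / m ^ (n + 1)` drops by a factor `1 - κ / m` at each step. -/
theorem grow (H : ℕ → ℕ) (n e M : ℕ)
    (hH : ∀ μ, μ ^ (n + 1) ≤ ∑ t ∈ range ((n + 1) * μ), H t) {η : ℝ} (hη : 0 < η) :
    ∃ m, M ≤ m ∧ (n + 1 - η) * ∑ t ∈ range m, (H t : ℝ) ≤ (m - e) * H m := by
  by_contra hne
  push Not at hne
  set β : ℝ := n + 1 - η with hβ
  have hΦ : ∀ m, 0 ≤ ∑ t ∈ range m, (H t : ℝ) := fun m => by positivity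
  set m₀ := M + e + 2 with hm₀
  have hβ0 : 0 ≤ β := by
    by_contra hb
    have h1 := hne (M + e) (by omega)
    have h2 : (0 : ℝ) ≤ ((M + e : ℕ) - e : ℝ) * H (M + e) := by
      refine mul_nonneg ?_ (Nat.cast_nonneg _)
      push_cast
      linarith [Nat.cast_nonneg (α := ℝ) M]
    nlinarith [hΦ (M + e)]
  obtain ⟨C, hC0, hC⟩ : ∃ C : ℝ, 0 ≤ C ∧ ∀ m, m₀ ≤ m →
      ∑ t ∈ range m, (H t : ℝ) ≤ C * ((m : ℝ) - e - 1) ^ β := by
    have hpos : ∀ m : ℕ, m₀ ≤ m → (1 : ℝ) ≤ (m : ℝ) - e - 1 := fun m hm => by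
      have : ((e + 2 : ℕ) : ℝ) ≤ m := Nat.cast_le.2 (by omega)
      push_cast at this
      linarith
    refine ⟨∑ t ∈ range m₀, (H t : ℝ), hΦ _, fun m hm => ?_⟩
    induction m, hm using Nat.le_induction with
    | base => exact le_mul_of_one_le_right (hΦ _) (Real.one_le_rpow (hpos _ le_rfl) hβ0)
    | succ m hm ih =>
      have hx := hpos m hm
      have h1 := hne m (by omega)
      have h2 := grow_step (x := (m : ℝ) - e - 1) (by linarith) hβ0
      have e1 : ((m + 1 : ℕ) : ℝ) - e - 1 = m - e - 1 + 1 := by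
        push_cast
        ring
      have h3 : (H m : ℝ) ≤ (∑ t ∈ range m, (H t : ℝ)) * (β / (m - e - 1 + 1)) := by
        rw [← mul_div_assoc, le_div_iff₀ (by linarith)]
        linarith
      have h4 : 0 ≤ β / ((m : ℝ) - e - 1 + 1) := div_nonneg hβ0 (by linarith)
      rw [sum_range_succ, e1]
      calc ∑ t ∈ range m, (H t : ℝ) + H m
          ≤ (∑ t ∈ range m, (H t : ℝ)) * (1 + β / (m - e - 1 + 1)) := by linarith
        _ ≤ (∑ t ∈ range m₀, (H t : ℝ)) * ((m : ℝ) - e - 1) ^ β *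
            (1 + β / (m - e - 1 + 1)) := by gcongr
        _ ≤ _ := by
          rw [mul_assoc]
          exact mul_le_mul_of_nonneg_left h2 (hΦ _)
  have ht := ((tendsto_rpow_atTop hη).comp tendsto_natCast_atTop_atTop).eventually_gt_atTop
    (C * ((n : ℝ) + 1) ^ β)
  obtain ⟨μ, h1, h2⟩ := (ht.and (Filter.eventually_ge_atTop m₀)).exists
  have hμ : (0 : ℝ) < μ := Nat.cast_pos.2 (by omega)
  have h3 : m₀ ≤ (n + 1) * μ := h2.trans (Nat.le_mul_of_pos_left _ n.succ_pos)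
  have h4 : (μ : ℝ) ^ (n + 1) ≤ ∑ t ∈ range ((n + 1) * μ), (H t : ℝ) := by
    exact_mod_cast hH μ
  have h5 : (((n + 1) * μ : ℕ) - e - 1 : ℝ) ^ β ≤ ((n : ℝ) + 1) ^ β * (μ : ℝ) ^ β := by
    rw [← Real.mul_rpow (by positivity) hμ.le]
    have : ((e + 2 : ℕ) : ℝ) ≤ ((n + 1) * μ : ℕ) := Nat.cast_le.2 (by omega)
    push_cast at this ⊢
    refine Real.rpow_le_rpow (by linarith) ?_ hβ0
    linarith [Nat.cast_nonneg (α := ℝ) e]
  have h6 : (μ : ℝ) ^ (n + 1) = (μ : ℝ) ^ η * (μ : ℝ) ^ β := by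
    rw [← Real.rpow_add hμ, ← Real.rpow_natCast]
    congr 1
    rw [hβ]
    push_cast
    ring
  have h7 : 0 < (μ : ℝ) ^ β := Real.rpow_pos_of_pos hμ _
  have h8 := (h4.trans (hC _ h3)).trans (mul_le_mul_of_nonneg_left h5 hC0)
  rw [h6, ← mul_assoc] at h8
  exact absurd (le_of_mul_le_mul_right h8 h7) (not_le.2 h1)

end Pool.Agent.Lib.MP_651af7_nt.Sn
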