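import Pool.Agent.Lib.MP_651af7_nt.Sn.Sub
import Pool.Agent.Lib.MP_651af7_nt.Sn.Alg

/-! Local estimates. -/

namespace Pool.Agent.Lib.MP_651af7_nt.Sn

open MvPolynomial Finset

variable {k : Type} [Field k] [NumberField k] {N q s d : ℕ} {I : Ideal (MvPolynomial (Fin N) k)}

/-- The span of the classes of the forms `F j i`. -/
noncomputable def Us (I : Ideal (MvPolynomial (Fin N) k))
    (F : Fin q → Fin s → MvPolynomial (Fin N) k) (j : Fin q) :
    Submodule k (MvPolynomial (Fin N) k ⧸ I) :=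
  Submodule.span k (Set.range fun i => Ideal.Quotient.mk I (F j i))

/-- The local height. -/
noncomputable def lam (w : AbsoluteValue k ℝ) (d : ℕ) (F : Fin s → MvPolynomial (Fin N) k)
    (x : Fin N → k) : ℝ := Real.log ((⨆ a, w (x a)) ^ d / ⨆ i, w (eval x (F i)))

omit [NumberField k] in
theorem loc_le (w : AbsoluteValue k ℝ) {ι : Type} [Finite ι] (f : ι → k) (i : ι) :
    w (f i) ≤ ⨆ i, w (f i) := le_ciSup (Finite.bddAbove_range fun i => w (f i)) i

omit [NumberField k] in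
theorem loc_nn (w : AbsoluteValue k ℝ) {ι : Type} (f : ι → k) : 0 ≤ ⨆ i, w (f i) :=
  Real.iSup_nonneg fun _ => w.nonneg _

omit [NumberField k] in
theorem loc_pos (w : AbsoluteValue k ℝ) {ι : Type} [Finite ι] {f : ι → k} (h : ∃ i, f i ≠ 0) :
    0 < ⨆ i, w (f i) := h.elim fun i hi => (w.pos hi).trans_le (loc_le w f i)

theorem lam_ge (w : AbsoluteValue k ℝ) {F : Fin s → MvPolynomial (Fin N) k}
    (hF : ∀ i, (F i).IsHomogeneous d) : ∃ C : ℝ, ∀ x : Fin N → k, x ≠ 0 →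
      (∃ i, eval x (F i) ≠ 0) → -C ≤ lam w d F x := by
  let K : Fin s → ℝ := fun i => (AddMonoidAlgebra.coeff (F i)).sum fun _ c => w c
  have hK : ∀ i, 0 ≤ K i := fun i => sum_nonneg fun _ _ => w.nonneg _
  have h0 : 0 ≤ ∑ i, K i := sum_nonneg fun i _ => hK i
  refine ⟨∑ i, K i, fun x _ _ => ?_⟩
  have h1 := pow_nonneg (loc_nn w x) d
  rw [lam, ← inv_div, Real.log_inv, neg_le_neg_iff]
  refine (Real.log_le_self (div_nonneg (loc_nn w _) h1)).trans (div_le_of_le_mul₀ h1 h0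
    (Real.iSup_le (fun i => (w.eval_mvPolynomial_le (hF i) x).trans ?_) (mul_nonneg h0 h1)))
  exact mul_le_mul_of_nonneg_right (single_le_sum (fun i _ => hK i) (mem_univ i)) h1

/-- The classes whose values are bounded by a multiple of `b`. -/
def locS (w : AbsoluteValue k ℝ) (b : {x : Fin N → k // ∀ P ∈ I, eval x P = 0} → ℝ) :
    Submodule k (MvPolynomial (Fin N) k ⧸ I) where
  carrier := {z | ∃ C : ℝ, ∀ x, w (ev x z) ≤ C * b x}
  zero_mem' := ⟨0, fun x => by simp⟩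
  add_mem' := by
    rintro y z ⟨C, hC⟩ ⟨D, hD⟩
    refine ⟨C + D, fun x => ?_⟩
    rw [map_add, add_mul]
    exact (w.add_le _ _).trans (add_le_add (hC x) (hD x))
  smul_mem' := by
    rintro c z ⟨C, hC⟩
    refine ⟨w c * C, fun x => ?_⟩
    rw [map_smul, smul_eq_mul, w.map_mul, mul_assoc]
    exact mul_le_mul_of_nonneg_left (hC x) (w.nonneg c)

omit [NumberField k] in
theorem loc_mul {w : AbsoluteValue k ℝ} {b c : {x : Fin N → k // ∀ P ∈ I, eval x P = 0} → ℝ}
    {M M' : Submodule k (MvPolynomial (Fin N) k ⧸ I)} (h : M ≤ locS w b) (h' : M' ≤ locS w c) :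
    M * M' ≤ locS w fun x => b x * c x := by
  refine Submodule.mul_le.2 fun y hy z hz => ?_
  obtain ⟨C, hC⟩ := h hy
  obtain ⟨D, hD⟩ := h' hz
  refine ⟨C * D, fun x => ?_⟩
  rw [map_mul, w.map_mul, mul_mul_mul_comm]
  exact mul_le_mul (hC x) (hD x) (w.nonneg _) ((w.nonneg _).trans (hC x))

omit [NumberField k] in
theorem loc_one (w : AbsoluteValue k ℝ) :
    (1 : Submodule k (MvPolynomial (Fin N) k ⧸ I)) ≤ locS w fun _ => 1 :=
  Submodule.one_le.2 ⟨1, fun x => by simp⟩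

omit [NumberField k] in
theorem loc_pow {w : AbsoluteValue k ℝ} {b : {x : Fin N → k // ∀ P ∈ I, eval x P = 0} → ℝ}
    {M : Submodule k (MvPolynomial (Fin N) k ⧸ I)} (h : M ≤ locS w b) (n : ℕ) :
    M ^ n ≤ locS w fun x => b x ^ n := by
  induction n with
  | zero => simpa only [pow_zero, Submodule.pow_zero] using loc_one w
  | succ n ih => simpa only [pow_succ, Submodule.pow_succ] using loc_mul ih h

omit [NumberField k] in
theorem loc_prod {w : AbsoluteValue k ℝ} {ι : Type}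
    {b : ι → {x : Fin N → k // ∀ P ∈ I, eval x P = 0} → ℝ}
    {M : ι → Submodule k (MvPolynomial (Fin N) k ⧸ I)} (h : ∀ j, M j ≤ locS w (b j))
    (t : Finset ι) : ∏ j ∈ t, M j ≤ locS w fun x => ∏ j ∈ t, b j x := by
  classical
  induction t using Finset.induction_on with
  | empty => simpa only [prod_empty] using loc_one w
  | insert j t hj ih => simpa only [prod_insert hj] using loc_mul (h j) ih

omit [NumberField k] in
theorem loc_bd (w : AbsoluteValue k ℝ) (d : ℕ) :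
    Bd I d ≤ locS w fun x => (⨆ a, w (x.1 a)) ^ d := fun z hz => by
  obtain ⟨P, hP, rfl⟩ := mem_bd.1 hz
  exact ⟨_, fun x => w.eval_mvPolynomial_le hP x.1⟩

omit [NumberField k] in
theorem loc_us (w : AbsoluteValue k ℝ) (F : Fin q → Fin s → MvPolynomial (Fin N) k) (j : Fin q)
    {b : {x : Fin N → k // ∀ P ∈ I, eval x P = 0} → ℝ}
    (hb : ∀ x, ⨆ i, w (eval x.1 (F j i)) ≤ b x) : Us I F j ≤ locS w b := by
  refine Submodule.span_le.2 ?_
  rintro _ ⟨i, rfl⟩
  exact ⟨1, fun x => ((loc_le w (fun i => eval x.1 (F j i)) i).trans (hb x)).trans_eq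
    (one_mul _).symm⟩

theorem vm_lam (w : AbsoluteValue k ℝ) (F : Fin q → Fin s → MvPolynomial (Fin N) k) {m : ℕ}
    {a : Fin q → ℕ} (ha : ∑ j, a j ≤ m) {z : MvPolynomial (Fin N) k ⧸ I}
    (hz : z ∈ Vm (Bd I d) (Us I F) m a) : ∃ C : ℝ,
      ∀ x : {x : Fin N → k // ∀ P ∈ I, eval x P = 0}, x.1 ≠ 0 →
        (∀ j, ∃ i, eval x.1 (F j i) ≠ 0) → ev x z ≠ 0 →
        ∑ j, a j * lam w d (F j) x.1 ≤
          Real.log ((⨆ a, w (x.1 a)) ^ (d * m) / w (ev x z)) + C := by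
  obtain ⟨C, hC⟩ := loc_mul (loc_prod (fun j => loc_pow (loc_us w F j fun _ => le_rfl) (a j)) univ)
    (loc_pow (loc_bd w d) (m - ∑ j, a j)) hz
  refine ⟨Real.log C, fun x hx hF hz0 => ?_⟩
  have hA := loc_pos w (Function.ne_iff.1 hx)
  have hB := fun j => loc_pos w (hF j)
  have h0 := w.pos hz0
  have h1 := prod_pos fun j (_ : j ∈ univ) => pow_pos (hB j) (a j)
  have h2 := pow_pos (pow_pos hA d) (m - ∑ j, a j)
  have h3 : 0 < C := pos_of_mul_pos_left (h0.trans_le (hC x)) (mul_pos h1 h2).le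
  have h4 := Real.log_le_log h0 (hC x)
  rw [Real.log_mul h3.ne' (mul_pos h1 h2).ne', Real.log_mul h1.ne' h2.ne',
    Real.log_prod fun j _ => (pow_pos (hB j) _).ne'] at h4
  simp only [Real.log_pow, Nat.cast_sub ha, Nat.cast_sum] at h4
  simp only [lam, Real.log_div (pow_pos hA _).ne' (hB _).ne',
    Real.log_div (pow_pos hA _).ne' h0.ne', Real.log_pow, mul_sub, sum_sub_distrib, ← sum_mul,
    Nat.cast_mul]
  linarith

theorem one_far (w : AbsoluteValue k ℝ) (F : Fin q → Fin s → MvPolynomial (Fin N) k)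
    (Z : Finset (Fin q)) {e : ℕ}
    (rel : Bd I d ^ (e + 1) ≤ (⨆ j ∈ Z, Us I F j) * Bd I d ^ e) : ∃ C : ℝ,
      ∀ x : {x : Fin N → k // ∀ P ∈ I, eval x P = 0}, x.1 ≠ 0 →
        (∀ j, ∃ i, eval x.1 (F j i) ≠ 0) → ∃ j ∈ Z, lam w d (F j) x.1 ≤ C := by
  have h1 := rel.trans (loc_mul (iSup₂_le fun j hj => loc_us w F j
    (b := fun x => ∑ j ∈ Z, ⨆ i, w (eval x.1 (F j i))) fun x =>
      single_le_sum (f := fun j => ⨆ i, w (eval x.1 (F j i))) (fun _ _ => loc_nn w _) hj)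
    (loc_pow (loc_bd w d) e))
  rw [bd_pow] at h1
  choose C hC using fun i => h1 (mem_bd.2 ⟨_, isHomogeneous_X_pow i (d * (e + 1)), rfl⟩)
  refine ⟨(∑ i, |C i|) * Z.card, fun x hx hF => ?_⟩
  have hA := loc_pos w (Function.ne_iff.1 hx)
  have : Nonempty (Fin N) := (Function.ne_iff.1 hx).nonempty
  obtain ⟨i, hi⟩ := exists_eq_ciSup_of_finite (f := fun a => w (x.1 a))
  have h2 := hC i x
  rw [ev_mk, map_pow, eval_X, w.map_pow, hi, pow_mul, pow_succ', ← mul_assoc] at h2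
  have h3 := le_of_mul_le_mul_right h2 (pow_pos (pow_pos hA d) e)
  rcases Z.eq_empty_or_nonempty with rfl | hZ
  · rw [sum_empty, mul_zero] at h3
    exact absurd h3 (pow_pos hA d).not_ge
  obtain ⟨j, hj, h4⟩ := Z.exists_max_image (fun j => ⨆ i, w (eval x.1 (F j i))) hZ
  have hB := loc_pos w (hF j)
  refine ⟨j, hj, (Real.log_le_self (div_pos (pow_pos hA d) hB).le).trans ?_⟩
  rw [div_le_iff₀ hB, mul_assoc, ← nsmul_eq_mul Z.card]
  exact h3.trans (mul_le_mul ((le_abs_self _).trans (single_le_sum (f := fun i => |C i|)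
    (fun _ _ => abs_nonneg _) (mem_univ i))) (sum_le_card_nsmul _ _ _ h4)
    (sum_nonneg fun _ _ => loc_nn w _) (sum_nonneg fun _ _ => abs_nonneg _))

end Pool.Agent.Lib.MP_651af7_nt.Sn
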