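import Mathlib

/-! Weights of Nochka type for a convex set of weight vectors. -/

namespace Pool.Agent.Lib.MP_651af7_nt.Sn

open Finset

variable {q : ℕ}

/-- Restriction to a set of coordinates. -/
def res (U : Finset (Fin q)) (y : Fin q → ℝ) : Fin q → ℝ := fun j => if j ∈ U then y j else 0

/-- The vector `x` on `Z` and `t` elsewhere. -/
def fill (Z : Finset (Fin q)) (x : Fin q → ℝ) (t : ℝ) : Fin q → ℝ :=
  fun j => if j ∈ Z then x j else t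

/-- A closed convex set of nonnegative vectors that is stable under lowering. -/
structure Cor (K : Set (Fin q → ℝ)) : Prop where
  cl : IsClosed K
  cv : Convex ℝ K
  nn : ∀ x ∈ K, ∀ j, 0 ≤ x j
  dn : ∀ x ∈ K, ∀ y : Fin q → ℝ, (∀ j, 0 ≤ y j) → (∀ j, y j ≤ x j) → y ∈ K

/-- No coordinate in `Z` of the restriction of `y` can be raised. -/
def Tight (K : Set (Fin q → ℝ)) (Z : Finset (Fin q)) (y : Fin q → ℝ) : Prop :=
  ∀ j ∈ Z, ∀ δ : ℝ, 0 < δ → res Z y + res {j} (fun _ => δ) ∉ K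

variable {K : Set (Fin q → ℝ)}

theorem Cor.nn_add (h : Cor K) {y : Fin q → ℝ} (hy : y ∈ K) (D : Finset (Fin q)) {δ : ℝ}
    (hδ : 0 < δ) (i : Fin q) : 0 ≤ (y + res D (fun _ => δ) : Fin q → ℝ) i := by
  have := h.nn y hy i
  simp only [res, Pi.add_apply]
  split_ifs <;> linarith

theorem res_le {Y A : Finset (Fin q)} {y z : Fin q → ℝ} (h : Y ⊆ A) (h0 : ∀ i ∈ A, 0 ≤ z i)
    (h1 : ∀ i ∈ Y, y i ≤ z i) (i : Fin q) : res Y y i ≤ res A z i := by
  have := @h i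
  have := h0 i
  have := h1 i
  by_cases a : i ∈ Y <;> by_cases b : i ∈ A <;> simp_all [res]

theorem Cor.nn_res (h : Cor K) {y : Fin q → ℝ} {A : Finset (Fin q)} (hy : res A y ∈ K) :
    ∀ i ∈ A, 0 ≤ y i := fun i hi => by simpa [res, hi] using h.nn _ hy i

theorem Cor.sub (h : Cor K) {y : Fin q → ℝ} {Y A : Finset (Fin q)} (a : Y ⊆ A)
    (b : res A y ∈ K) : res Y y ∈ K :=
  h.dn _ b _ (fun i => by
    simp only [res]
    split_ifs with e
    exacts [h.nn_res b i (a e), le_rfl]) (res_le a (h.nn_res b) fun _ _ => le_rfl)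

theorem Cor.raise (h : Cor K) {y : Fin q → ℝ} (hy : y ∈ K) (D : Finset (Fin q))
    (hD : ∀ j ∈ D, ∃ δ : ℝ, 0 < δ ∧ y + res {j} (fun _ => δ) ∈ K) :
    ∃ δ : ℝ, 0 < δ ∧ y + res D (fun _ => δ) ∈ K := by
  induction D using Finset.induction_on with
  | empty => exact ⟨1, one_pos, h.dn y hy _ (by simpa [res] using h.nn y hy) (by simp [res])⟩
  | insert j D hj ih =>
    obtain ⟨a, ha, h1⟩ := ih fun i hi => hD i (mem_insert_of_mem hi)
    obtain ⟨b, hb, h2⟩ := hD j (mem_insert_self _ _)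
    have h3 := h.cv h1 h2 (a := 1 / 2) (b := 1 / 2) (by norm_num) (by norm_num) (by norm_num)
    have h4 := lt_min ha hb
    refine ⟨min a b / 2, by positivity, h.dn _ h3 _ (h.nn_add hy _ (by positivity)) fun i => ?_⟩
    have := min_le_left a b
    have := min_le_right a b
    simp only [res, Pi.add_apply, Pi.smul_apply, smul_eq_mul, mem_insert, mem_singleton]
    by_cases e : i = j <;> by_cases e' : i ∈ D <;> simp only [e, e', hj, or_true, or_false,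
      if_true, if_false] <;> linarith

theorem Cor.block (h : Cor K) {y : Fin q → ℝ} {A D : Finset (Fin q)} (hy : res A y ∈ K)
    (hD : D ⊆ A) (hb : ∀ δ : ℝ, 0 < δ → res A y + res D (fun _ => δ) ∉ K) :
    ∃ Z ⊆ A, (∃ j ∈ D, j ∈ Z) ∧ Tight K Z y ∧
      ∀ j ∈ A, (∀ δ : ℝ, 0 < δ → res A y + res {j} (fun _ => δ) ∉ K) → j ∈ Z := by
  classical
  let Z := A.filter fun j => ∀ δ : ℝ, 0 < δ → res A y + res {j} (fun _ => δ) ∉ K
  have hZ : ∀ j ∈ A, j ∉ Z → ∃ δ : ℝ, 0 < δ ∧ res A y + res {j} (fun _ => δ) ∈ K := fun j a b => by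
    by_contra c
    exact b (mem_filter.2 ⟨a, fun δ d e => c ⟨δ, d, e⟩⟩)
  refine ⟨Z, filter_subset _ _, ?_, fun j hj δ hδ h1 => ?_, fun j a b => mem_filter.2 ⟨a, b⟩⟩
  · by_contra c
    obtain ⟨δ, h1, h2⟩ := h.raise hy D fun j hj => hZ j (hD hj) fun e => c ⟨j, hj, e⟩
    exact hb δ h1 h2
  obtain ⟨b, hb0, h2⟩ := h.raise hy (A \ Z) fun i hi => hZ i (mem_sdiff.1 hi).1 (mem_sdiff.1 hi).2
  have y0 := h.nn _ hy
  obtain ⟨M, hM⟩ : ∃ M, M = ∑ i, res A y i := ⟨_, rfl⟩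
  have M0 : 0 ≤ M := hM ▸ sum_nonneg fun i _ => y0 i
  have M1 : ∀ i, res A y i ≤ M := fun i => hM ▸ single_le_sum (fun i _ => y0 i) (mem_univ i)
  obtain ⟨θ, hθ⟩ : ∃ θ, θ = b / (M + b) := ⟨_, rfl⟩
  have t0 : 0 < θ := hθ ▸ by positivity
  have t1 : θ * (M + b) = b := by rw [hθ]; field_simp
  have t2 : θ ≤ 1 := by rw [hθ, div_le_one (by positivity)]; linarith
  have h3 := h.cv h2 h1 (a := 1 - θ) (b := θ) (by linarith) t0.le (by ring)
  have t3 := mul_pos t0 hδ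
  refine (mem_filter.1 hj).2 (θ * δ) t3 (h.dn _ h3 _ (h.nn_add hy _ t3) fun i => ?_)
  have a1 := mul_le_mul_of_nonneg_left (M1 i) t0.le
  have a2 : i ∈ Z → i ∈ A := fun e => filter_subset _ _ e
  simp only [res, Pi.add_apply, Pi.smul_apply, smul_eq_mul, mem_sdiff, mem_singleton] at a1 ⊢
  by_cases e1 : i ∈ Z
  · simp only [e1, a2 e1, if_true, not_true, and_false, if_false]
    split_ifs <;> linarith
  · have e3 : i ≠ j := fun e => e1 (e ▸ hj)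
    by_cases e2 : i ∈ A
    · simp only [e1, e2, e3, if_true, if_false, not_false_iff, and_true] at a1 ⊢
      linarith
    · simp [e1, e2, e3]

theorem res_fill (U Z : Finset (Fin q)) (x : Fin q → ℝ) (t δ : ℝ) :
    res U (fill Z x (t + δ)) = res U (fill Z x t) + res (U \ Z) fun _ => δ := by
  funext j
  by_cases a : j ∈ U <;> by_cases b : j ∈ Z <;> simp [res, fill, a, b]

theorem Cor.stop (h : Cor K) (c : Finset (Fin q) → Prop) (Z : Finset (Fin q)) (x : Fin q → ℝ)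
    {a b : ℝ} (hab : a ≤ b) (ha : ∀ U, c U → res U (fill Z x a) ∈ K) :
    (∀ U, c U → res U (fill Z x b) ∈ K) ∨ ∃ t, a ≤ t ∧ t < b ∧
      (∀ U, c U → res U (fill Z x t) ∈ K) ∧ ∃ U, c U ∧
        ∀ δ : ℝ, 0 < δ → res U (fill Z x t) + res (U \ Z) (fun _ => δ) ∉ K := by
  classical
  have c1 : IsClosed {t : ℝ | ∀ U, c U → res U (fill Z x t) ∈ K} := by
    simp only [Set.ofPred_forall]
    refine isClosed_iInter fun U => isClosed_iInter fun _ => h.cl.preimage ?_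
    refine continuous_pi fun j => ?_
    by_cases a : j ∈ U <;> by_cases b : j ∈ Z <;> simp only [res, fill, a, b, if_true, if_false] <;>
      fun_prop
  obtain ⟨t, ⟨⟨t1, t2⟩, t3⟩, t4⟩ := (isCompact_Icc.inter_right c1).exists_isGreatest
    ⟨a, ⟨le_rfl, hab⟩, ha⟩
  rcases t2.eq_or_lt with rfl | t5
  · exact Or.inl t3
  refine Or.inr ⟨t, t1, t5, t3, ?_⟩
  by_contra hc
  have h1 : ∀ U, ∃ δ : ℝ, 0 < δ ∧ (c U → res U (fill Z x t) + res (U \ Z) (fun _ => δ) ∈ K) := by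
    intro U
    by_contra e
    refine hc ⟨U, by_contra fun f => e ⟨1, one_pos, fun g => (f g).elim⟩,
      fun δ d f => e ⟨δ, d, fun _ => f⟩⟩
  choose δ d1 d2 using h1
  obtain ⟨U₀, -, d3⟩ := exists_min_image univ δ univ_nonempty
  have d4 : 0 < min (δ U₀) (b - t) := lt_min (d1 _) (by linarith)
  have d5 := min_le_right (δ U₀) (b - t)
  have := t4 (a := t + min (δ U₀) (b - t)) ⟨⟨by linarith, by linarith⟩, fun U hU => by
    rw [res_fill]
    refine h.dn _ (d2 U hU) _ (h.nn_add (t3 U hU) _ d4) fun j => ?_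
    have := (min_le_left _ (b - t)).trans (d3 U (mem_univ _))
    simp only [Pi.add_apply, res]
    split_ifs <;> linarith⟩
  linarith

theorem Cor.wts (h : Cor K) {c : Fin q → ℝ} (hc : ∀ j, 0 < c j) {μ E ν : ℝ} (hμ : 0 < μ)
    (hE : 0 ≤ E) (hν : 0 < ν) (h0 : (0 : Fin q → ℝ) ∈ K) (ρ : Finset (Fin q) → ℝ)
    (hρ : ∀ Z, ρ Z < ν → ∑ j ∈ Z, c j ≤ μ * ρ Z + E)
    (aug : ∀ Z : Finset (Fin q), ∀ x ∈ K, ∃ x' ∈ K, (∀ j ∈ Z, x j ≤ x' j) ∧
      ρ Z ≤ ∑ j ∈ Z, c j * x' j) :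
    ∃ (σ : ℝ) (ω : Fin q → ℝ), 0 < σ ∧ (∀ j, 0 ≤ ω j ∧ ω j ≤ σ) ∧
      ν + ∑ j, c j * (σ - ω j) ≤ σ * (μ * ν + 2 * E) ∧ ∀ A : Finset (Fin q),
        (∀ Y ⊆ A, ∑ j ∈ Y, c j ≤ μ * ρ Y + E) → res A ω ∈ K := by
  classical
  have low : ∀ Z y, res Z y ∈ K → Tight K Z y → ρ Z ≤ ∑ j ∈ Z, c j * y j := by
    intro Z y h1 h2
    obtain ⟨x', h3, h4, h5⟩ := aug Z _ h1
    refine h5.trans (sum_le_sum fun j hj => mul_le_mul_of_nonneg_left
      (le_of_not_gt fun c => ?_) (hc j).le)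
    refine h2 j hj (x' j - y j) (by linarith)
      (h.dn _ h3 _ (h.nn_add h1 _ (by linarith)) fun i => ?_)
    by_cases e : i = j
    · simp [res, e, hj]
    · by_cases e' : i ∈ Z
      · simpa [res, e] using h4 i e'
      · simpa [res, e, e'] using h.nn _ h3 i
  have mono : ∀ {Y A : Finset (Fin q)}, Y ⊆ A → ∑ j ∈ Y, c j ≤ ∑ j ∈ A, c j := fun e =>
    sum_le_sum_of_subset_of_nonneg e fun j _ _ => (hc j).le
  have r0 : ∀ U, res U (fill ∅ (0 : Fin q → ℝ) 0) ∈ K := fun U =>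
    h.dn _ h0 _ (by simp [res, fill]) (by simp [res, fill])
  obtain ⟨W, hW⟩ : ∃ W : ℝ, W = μ * ν + 2 * E := ⟨_, rfl⟩
  have W1 := mul_pos hμ hν
  let Good : Finset (Fin q) → Prop := fun Z => ∃ (x : Fin q → ℝ) (τ : ℝ), Tight K Z x ∧ 0 ≤ τ ∧
    (∀ j ∈ Z, x j ≤ τ) ∧ ∑ j ∈ Z, c j * x j < ν ∧ ∑ j ∈ Z, c j ≤ W ∧
    τ * (W - ∑ j ∈ Z, c j) ≤ ν - ∑ j ∈ Z, c j * x j ∧
    ∀ U, ∑ j ∈ Z ∪ U, c j ≤ W → res U (fill Z x τ) ∈ K
  obtain ⟨Z, hZ, hmax⟩ := exists_max_image (univ.filter Good) card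
    ⟨∅, mem_filter.2 ⟨mem_univ _, 0, 0, fun j hj => by simp at hj, le_rfl, by simp, by simpa,
      by simp; linarith, by simpa using hν.le, fun U _ => r0 U⟩⟩
  obtain ⟨x, τ, g1, g2, g3, g4, g5, g6, g7⟩ := (mem_filter.1 hZ).2
  have rz : ∀ t, res Z (fill Z x t) = res Z x := fun t => by
    funext j
    by_cases a : j ∈ Z <;> simp [res, fill, a]
  have g8 : res Z x ∈ K := rz τ ▸ g7 Z (by rwa [union_self])
  have x0 : ∀ j ∈ Z, 0 ≤ x j := h.nn_res g8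
  have g9 := mul_le_mul_of_nonneg_left (low Z x g8 g1) hμ.le
  have g10 := hρ Z ((low Z x g8 g1).trans_lt g4)
  have g11 := mul_lt_mul_of_pos_left g4 hμ
  have W0 : 0 < W - ∑ j ∈ Z, c j := by linarith
  obtain ⟨σ, hσ⟩ : ∃ σ, σ = (ν - ∑ j ∈ Z, c j * x j) / (W - ∑ j ∈ Z, c j) := ⟨_, rfl⟩
  have s0 : 0 < σ := hσ ▸ div_pos (by linarith) W0
  have s1 : σ * (W - ∑ j ∈ Z, c j) = ν - ∑ j ∈ Z, c j * x j := by rw [hσ]; field_simp
  have s2 : τ ≤ σ := by rw [hσ, le_div_iff₀ W0]; exact g6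
  have s3 : μ * σ ≤ 1 := by rw [hσ, ← mul_div_assoc, div_le_one W0]; linarith
  rcases h.stop (fun U => ∑ j ∈ Z ∪ U, c j ≤ W) Z x s2 g7 with k1 | ⟨t, t1, t2, t3, U, u1, u2⟩
  swap
  · exfalso
    have u3 : ∑ j ∈ Z ∪ (Z ∪ U), c j ≤ W := by rwa [← union_assoc, union_self]
    obtain ⟨Y, y1, ⟨j, j1, j2⟩, y2, y3⟩ := h.block (t3 _ u3)
      (sdiff_subset.trans subset_union_right : U \ Z ⊆ Z ∪ U) fun δ d e => u2 δ d (h.dn _ e _
        (h.nn_add (t3 U u1) _ d) fun i => add_le_add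
          (res_le subset_union_right (h.nn_res (t3 _ u3)) (fun _ _ => le_rfl) i) le_rfl)
    have y4 : Z ⊆ Y := fun i hi => y3 i (mem_union_left _ hi) fun δ d e => g1 i hi δ d
      (h.dn _ e _ (h.nn_add g8 _ d) fun i => add_le_add
        (res_le subset_union_left (h.nn_res (t3 _ u3)) (fun _ e => (if_pos e).ge) i) le_rfl)
    have y5 : ∑ i ∈ Y, c i * fill Z x t i =
        ∑ i ∈ Z, c i * x i + t * (∑ i ∈ Y, c i - ∑ i ∈ Z, c i) := by
      have e1 : ∑ i ∈ Z, c i * fill Z x t i = ∑ i ∈ Z, c i * x i :=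
        sum_congr rfl fun i hi => congrArg _ (if_pos hi)
      have e2 : ∑ i ∈ Y \ Z, c i * fill Z x t i = ∑ i ∈ Y \ Z, c i * t :=
        sum_congr rfl fun i hi => congrArg _ (if_neg (mem_sdiff.1 hi).2)
      rw [← sum_sdiff y4, add_comm, e1, e2, ← sum_mul, sum_sdiff_eq_sub y4, mul_comm]
    have y6 : ∑ i ∈ Y, c i ≤ W := (mono y1).trans u1
    have y7 := mul_lt_mul_of_pos_right t2 W0
    have y8 := mul_le_mul_of_nonneg_left y6 (g2.trans t1)
    have := hmax Y (mem_filter.2 ⟨mem_univ _, fill Z x t, t, y2, by linarith, fun i _ => ?_,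
      by rw [y5]; linarith, y6, by rw [y5]; linarith, fun V hV => ?_⟩)
    · exact (mem_sdiff.1 j1).2 (eq_of_subset_of_card_le y4 this ▸ j2)
    · simp only [fill]
      split_ifs with e
      exacts [(g3 i e).trans t1, le_rfl]
    · have e : fill Y (fill Z x t) t = fill Z x t := by
        funext i
        by_cases a : i ∈ Y
        · exact if_pos a
        · exact (if_neg a).trans (if_neg fun b => a (y4 b)).symm
      rw [e]
      exact t3 V ((mono (union_subset_union_left y4)).trans hV)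
  refine ⟨σ, fill Z x σ, s0, fun j => ?_, ?_, fun A hA => ?_⟩
  · simp only [fill]
    split_ifs with e
    exacts [⟨x0 j e, (g3 j e).trans s2⟩, ⟨s0.le, le_rfl⟩]
  · rw [← sum_subset (subset_univ Z) fun j _ hj => by simp [fill, hj],
      sum_congr rfl (g := fun j => c j * σ - c j * x j) fun j hj => by simp [fill, hj, mul_sub],
      sum_sub_distrib, ← sum_mul, ← hW]
    linarith
  have k0 : res univ (fill Z x 0) ∈ K := by
    convert g8 using 1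
    funext i
    simp [res, fill]
  rcases h.stop (fun U => U = A) Z x s0.le (fun U _ => h.sub (subset_univ _) k0)
    with k2 | ⟨t, t1, t2, t3, _, rfl, u2⟩
  · exact k2 A rfl
  exfalso
  obtain ⟨Y, y1, ⟨j, j1, j2⟩, y2, -⟩ := h.block (t3 _ rfl) sdiff_subset u2
  have y3 := low Y _ (h.sub y1 (t3 _ rfl)) y2
  have y4 : ∑ i ∈ Y, c i * fill Z x t i < ∑ i ∈ Y, c i * σ := by
    refine sum_lt_sum (fun i _ => mul_le_mul_of_nonneg_left ?_ (hc i).le) ⟨j, j2,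
      mul_lt_mul_of_pos_left (by simpa [fill, (mem_sdiff.1 j1).2] using t2) (hc j)⟩
    simp only [fill]
    split_ifs with e
    exacts [(g3 i e).trans s2, t2.le]
  rw [← sum_mul] at y4
  have y7 := mul_lt_mul_of_pos_left (y3.trans_lt y4) hμ
  have y8 := hA Y y1
  have y9 := congrArg (μ * ·) s1
  have y5 : ∑ i ∈ Z, c i + ∑ i ∈ Y, c i < W := lt_of_mul_lt_mul_right (a := 1 - μ * σ)
    (by linarith) (by linarith)
  have y6 : ∑ i ∈ Z ∪ Y, c i ≤ W := by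
    have := sum_union_inter (s₁ := Z) (s₂ := Y) (f := c)
    have : 0 ≤ ∑ i ∈ Z ∩ Y, c i := sum_nonneg fun i _ => (hc i).le
    linarith
  refine y2 j j2 (σ - t) (by linarith) (h.dn _ (k1 Y y6) _
    (h.nn_add (h.sub y1 (t3 _ rfl)) _ (by linarith)) fun i => ?_)
  by_cases e : i = j
  · simp [res, fill, e, j2, (mem_sdiff.1 j1).2]
  · by_cases a : i ∈ Y <;> by_cases b : i ∈ Z <;> simp [res, fill, e, a, b, t2.le]

theorem weights {c : Fin q → ℝ} (hc : ∀ j, 0 < c j) {μ E ν : ℝ} (hμ : 0 < μ) (hE : 0 ≤ E)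
    (hν : 0 < ν) {P : Set (Fin q → ℝ)} (hP : P.Finite) (hne : P.Nonempty) (h0 : ∀ p ∈ P, 0 ≤ p)
    (ρ : Finset (Fin q) → ℝ) (hρ : ∀ Z, ρ Z < ν → ∑ j ∈ Z, c j ≤ μ * ρ Z + E)
    (aug : ∀ Z : Finset (Fin q), ∀ p ∈ P, ∃ p' ∈ P, (∀ j ∈ Z, p j ≤ p' j) ∧ ρ Z ≤ ∑ j ∈ Z, p' j) :
    ∃ (σ : ℝ) (ω : Fin q → ℝ), 0 < σ ∧ (∀ j, 0 ≤ ω j ∧ ω j ≤ σ) ∧
      ν + ∑ j, c j * (σ - ω j) ≤ σ * (μ * ν + 2 * E) ∧
      ∀ A : Finset (Fin q), (∀ Y ⊆ A, ∑ j ∈ Y, c j ≤ μ * ρ Y + E) → ∀ z : Fin q → ℝ, 0 ≤ z →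
        ∃ p ∈ P, ∑ j ∈ A, c j * ω j * z j ≤ ∑ j ∈ A, p j * z j := by
  have c0 : ∀ p ∈ convexHull ℝ P, 0 ≤ p := fun p hp => convexHull_min h0 (convex_Ici 0) hp
  let K : Set (Fin q → ℝ) := {x | 0 ≤ x ∧ ∃ p ∈ convexHull ℝ P, c * x ≤ p}
  have hK : Cor K := by
    refine ⟨?_, ?_, fun x hx => hx.1, fun x ⟨_, p, h1, h2⟩ y h3 h4 => ⟨h3, p, h1,
      fun j => (mul_le_mul_of_nonneg_left (h4 j) (hc j).le).trans (h2 j)⟩⟩
    · have := isCompact_iff_compactSpace.1 (hP.isCompact_convexHull ℝ)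
      have h1 : IsClosed {z : (Fin q → ℝ) × convexHull ℝ P | c * z.1 ≤ z.2.1} :=
        isClosed_le (by fun_prop) (by fun_prop)
      refine isClosed_Ici.inter ?_
      convert isClosedMap_fst_of_compactSpace _ h1 using 1
      ext x
      exact ⟨fun ⟨p, a, b⟩ => ⟨(x, ⟨p, a⟩), b, rfl⟩, fun ⟨z, a, b⟩ => ⟨z.2.1, z.2.2, b ▸ a⟩⟩
    · rintro x ⟨h1, p, h2, h3⟩ y ⟨h4, p', h5, h6⟩ a b ha hb hab
      refine ⟨by positivity, _, convex_convexHull ℝ P h2 h5 ha hb hab, ?_⟩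
      rw [mul_add, mul_smul_comm, mul_smul_comm]
      gcongr
  obtain ⟨p₀, hp₀⟩ := hne
  obtain ⟨σ, ω, h1, h2, h3, h4⟩ := hK.wts hc hμ hE hν
    ⟨le_rfl, p₀, subset_convexHull ℝ P hp₀, by simpa using h0 _ hp₀⟩ ρ hρ
    fun Z x ⟨_, p, h5, h6⟩ => by
      have h7 : convexHull ℝ P ⊆ {p | ∃ p' ∈ convexHull ℝ P, (∀ j ∈ Z, p j ≤ p' j) ∧
          ρ Z ≤ ∑ j ∈ Z, p' j} := by
        refine convexHull_min (fun p hp => ?_) ?_
        · obtain ⟨p', a1, a2⟩ := aug Z p hp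
          exact ⟨p', subset_convexHull ℝ P a1, a2⟩
        · rintro x ⟨p, a1, a2, a3⟩ y ⟨p', a4, a5, a6⟩ a b ha hb hab
          refine ⟨_, convex_convexHull ℝ P a1 a4 ha hb hab, fun j hj => ?_, ?_⟩
          · exact add_le_add (mul_le_mul_of_nonneg_left (a2 j hj) ha)
              (mul_le_mul_of_nonneg_left (a5 j hj) hb)
          · simp only [Pi.add_apply, Pi.smul_apply, smul_eq_mul, sum_add_distrib, ← mul_sum]
            have := mul_le_mul_of_nonneg_left a3 ha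
            have := mul_le_mul_of_nonneg_left a6 hb
            have : (a + b) * ρ Z = ρ Z := by rw [hab, one_mul]
            linarith
      obtain ⟨p', a1, a2, a3⟩ := h7 h5
      have e : ∀ j, c j * (p' j / c j) = p' j := fun j => mul_div_cancel₀ _ (hc j).ne'
      exact ⟨fun j => p' j / c j, ⟨fun j => div_nonneg (c0 _ a1 j) (hc j).le, p', a1,
        fun j => (e j).le⟩, fun j hj => (le_div_iff₀' (hc j)).2 ((h6 j).trans (a2 j hj)),
        by simpa only [e] using a3⟩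
  refine ⟨σ, ω, h1, h2, h3, fun A hA z hz => ?_⟩
  obtain ⟨-, p, a1, a2⟩ := h4 A hA
  by_contra hcon
  have h7 : convexHull ℝ P ⊆ {p | ∑ j ∈ A, p j * z j < ∑ j ∈ A, c j * ω j * z j} := by
    refine convexHull_min (fun p hp => lt_of_not_ge fun e => hcon ⟨p, hp, e⟩) ?_
    refine convex_halfSpace_lt ⟨fun x y => ?_, fun a x => ?_⟩ _
    · simp [add_mul, sum_add_distrib]
    · simp [mul_sum, mul_assoc]
  refine absurd (h7 a1) (not_lt.2 (sum_le_sum fun j hj => mul_le_mul_of_nonneg_right ?_ (hz j)))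
  simpa [res, hj] using a2 j

end Pool.Agent.Lib.MP_651af7_nt.Sn
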