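import Pool.Agent.Lib.MP_651af7_nt.Sn.Loc
import Pool.Agent.Lib.MP_651af7_nt.Sn.Wt
import Pool.Agent.Lib.MP_651af7_nt.Sn.Grow

/-! The inequality of Schmidt and Nochka. -/

namespace Pool.Agent.Lib.MP_651af7_nt.Sn

open MvPolynomial Finset Height NumberField Module
open Rt (Pl av mu)

variable {k : Type} [Field k] [NumberField k] {N q s : ℕ}

theorem core_ub {ι : Type} [Finite ι] (c : ι → ℝ) : ∃ C, 0 ≤ C ∧ ∀ i, c i ≤ C :=
  (Set.finite_range c).bddAbove.elim fun b hb =>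
    ⟨max b 0, le_max_right _ _, fun i => (hb ⟨i, rfl⟩).trans (le_max_left _ _)⟩

theorem core_loc {I : Ideal (MvPolynomial (Fin N) k)} {d m e H : ℕ} (w : AbsoluteValue k ℝ)
    {F : Fin q → Fin s → MvPolynomial (Fin N) k} (hF : ∀ j i, (F j i).IsHomogeneous d)
    {r : Finset (Fin q) → ℕ}
    (far : ∀ Z, r Z = 0 → Bd I d ^ (e + 1) ≤ (⨆ j ∈ Z, Us I F j) * Bd I d ^ e)
    {T : Type} [Finite T] {a : T → Fin H → Fin q → ℕ} (ha : ∀ τ i, ∑ j, a τ i j ≤ m)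
    {v : T → Fin H → MvPolynomial (Fin N) k ⧸ I}
    (hv : ∀ τ i, v τ i ∈ Vm (Bd I d) (Us I F) m (a τ i)) {Φ : ℝ} (hΦ : 0 < Φ) {ω : Fin q → ℝ}
    (hω : ∀ j, 0 ≤ ω j)
    (hw : ∀ A : Finset (Fin q), (∀ Y ⊆ A, r Y ≠ 0) → ∀ c : Fin q → ℝ, 0 ≤ c →
      ∃ τ, ∑ j ∈ A, ω j * c j ≤ ∑ j ∈ A, (∑ i, (a τ i j : ℝ)) / Φ * c j) :
    ∃ C : ℝ, ∀ x : {x : Fin N → k // ∀ P ∈ I, eval x P = 0}, x.1 ≠ 0 →
      (∀ j, ∃ i, eval x.1 (F j i) ≠ 0) → (∀ τ i, ev x (v τ i) ≠ 0) →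
      ∃ τ, ∑ j, ω j * lam w d (F j) x.1 ≤
        (∑ i, Real.log ((⨆ a, w (x.1 a)) ^ (d * m) / w (ev x (v τ i)))) / Φ + C := by
  classical
  choose c₁ h₁ using fun j => lam_ge w (hF j)
  choose c₂ h₂ using fun p : T × Fin H => vm_lam w F (ha p.1 p.2) (hv p.1 p.2)
  choose c₃ h₃ using fun Z : {Z // r Z = 0} => one_far w F Z.1 (far Z.1 Z.2)
  obtain ⟨C₁, p₁, g₁⟩ := core_ub c₁
  obtain ⟨C₂, -, g₂⟩ := core_ub c₂
  obtain ⟨C₃, p₃, g₃⟩ := core_ub c₃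
  refine ⟨H * (C₂ + m * C₁) / Φ + ∑ j, ω j * (C₃ + C₁), fun x hx h0 hz => ?_⟩
  obtain ⟨A, hA⟩ : ∃ A : Finset (Fin q), ∀ j, j ∈ A ↔ C₃ < lam w d (F j) x.1 :=
    ⟨univ.filter fun j => C₃ < lam w d (F j) x.1, fun j => by simp⟩
  have k1 : ∀ Y ⊆ A, r Y ≠ 0 := fun Y hY h => by
    obtain ⟨j, hj, h4⟩ := h₃ ⟨Y, h⟩ x hx h0
    exact absurd ((hA j).1 (hY hj)) (not_lt.2 (h4.trans (g₃ _)))
  have k2 : ∀ j, 0 ≤ lam w d (F j) x.1 + C₁ := fun j => by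
    linarith [h₁ j x.1 hx (h0 j), g₁ j]
  obtain ⟨τ, hτ⟩ := hw A k1 (fun j => lam w d (F j) x.1 + C₁) k2
  refine ⟨τ, ?_⟩
  have k3 : ∑ j, ω j * lam w d (F j) x.1 ≤ ∑ j, ω j * (lam w d (F j) x.1 + C₁) :=
    sum_le_sum fun j _ => mul_le_mul_of_nonneg_left (le_add_of_nonneg_right p₁) (hω j)
  have k4 : ∑ j ∈ Aᶜ, ω j * (lam w d (F j) x.1 + C₁) ≤ ∑ j, ω j * (C₃ + C₁) :=
    (sum_le_sum fun j hj => mul_le_mul_of_nonneg_left
      (add_le_add_left (not_lt.1 (mt (hA j).2 (mem_compl.1 hj))) _) (hω j)).trans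
      (sum_le_sum_of_subset_of_nonneg (subset_univ _)
        fun j _ _ => mul_nonneg (hω j) (add_nonneg p₃ p₁))
  have k5 : ∑ j ∈ A, (∑ i, (a τ i j : ℝ)) / Φ * (lam w d (F j) x.1 + C₁) ≤
      ∑ j, (∑ i, (a τ i j : ℝ)) / Φ * (lam w d (F j) x.1 + C₁) :=
    sum_le_sum_of_subset_of_nonneg (subset_univ _) fun j _ _ => mul_nonneg (by positivity) (k2 j)
  have k6 : ∑ j, (∑ i, (a τ i j : ℝ)) / Φ * (lam w d (F j) x.1 + C₁) =
      (∑ i, (∑ j, a τ i j * lam w d (F j) x.1 + (∑ j, a τ i j : ℕ) * C₁)) / Φ := by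
    simp only [div_mul_eq_mul_div, ← sum_div, sum_mul, Nat.cast_sum, ← sum_add_distrib, ← mul_add]
    rw [sum_comm]
  have k7 : ∑ i, (∑ j, a τ i j * lam w d (F j) x.1 + (∑ j, a τ i j : ℕ) * C₁) ≤
      ∑ i, Real.log ((⨆ a, w (x.1 a)) ^ (d * m) / w (ev x (v τ i))) + H * (C₂ + m * C₁) := by
    have : (H : ℝ) * (C₂ + m * C₁) = ∑ _i : Fin H, (C₂ + m * C₁) := by simp [mul_add]
    rw [this, ← sum_add_distrib]
    refine sum_le_sum fun i _ => ?_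
    have h5 : ((∑ j, a τ i j : ℕ) : ℝ) * C₁ ≤ m * C₁ :=
      mul_le_mul_of_nonneg_right (Nat.cast_le.2 (ha τ i)) p₁
    linarith [h₂ (τ, i) x hx h0 (hz τ i), g₂ (τ, i)]
  have k8 := div_le_div_of_nonneg_right k7 hΦ.le
  rw [add_div] at k8
  linarith [sum_add_sum_compl A fun j => ω j * (lam w d (F j) x.1 + C₁)]

theorem core_num {e m H d : ℕ} {Φ σ r ε V W h T C : ℝ} (hΦ : 0 < Φ) (hσ : 0 < σ) (hr : 0 ≤ r)
    (hε : 0 < ε) (hh : 0 ≤ h) (hV : 0 ≤ V) (hm : e + (2 * V + ε) * (e + 1) / ε + 1 ≤ m)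
    (hg : 0 < ((m : ℝ) - e) * H / Φ) (hw : (m - e) * H / Φ + r ≤ σ * W) (hW : W ≤ V + ε / 2)
    (hT : σ * T ≤ (H + 1 / m) * (d * m : ℕ) * h / Φ + r * (d * h) + C) :
    T ≤ (V + ε) * d * h + C / σ := by
  obtain ⟨ν, hν⟩ : ∃ ν, ν = (m - e) * H / Φ := ⟨_, rfl⟩
  have p0 : (0 : ℝ) ≤ (2 * V + ε) * (e + 1) / ε := by positivity
  have pe : (0 : ℝ) ≤ e := Nat.cast_nonneg _
  have p1 : (0 : ℝ) < m - e := by linarith
  have p2 : (0 : ℝ) < m := by linarith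
  have p4 : (1 : ℝ) ≤ H := by
    refine Nat.one_le_cast.2 (Nat.pos_of_ne_zero fun h0 => ?_)
    rw [h0, Nat.cast_zero, mul_zero, zero_div] at hg
    exact lt_irrefl _ hg
  rw [← hν] at hw
  have p3 := mul_le_mul_of_nonneg_left hW hσ.le
  have p5 : ν ≤ σ * (V + ε / 2) := by linarith
  have p6 : (2 * V + ε) * (e + 1) ≤ (m - e) * ε := (div_le_iff₀ hε).1 (by linarith)
  have p7 : (e + 1) * H / Φ ≤ σ * (ε / 2) := by
    have : (e + 1) * H / Φ = ν * (e + 1) / (m - e) := by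
      rw [hν]
      field_simp
    rw [this, div_le_iff₀ p1]
    nlinarith
  have p8 : (H + 1 / m) * m / Φ ≤ ν + (e + 1) * H / Φ := by
    rw [hν, ← add_div]
    refine div_le_div_of_nonneg_right ?_ hΦ.le
    rw [add_mul, one_div_mul_cancel p2.ne']
    nlinarith
  have p9 : (H + 1 / m) * m / Φ + r ≤ σ * (V + ε) := by linarith
  have p10 := mul_le_mul_of_nonneg_right p9 (show 0 ≤ d * h by positivity)
  have p11 : (H + 1 / m) * (d * m : ℕ) * h / Φ = (H + 1 / m) * m / Φ * (d * h) := by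
    push_cast
    ring
  refine le_of_mul_le_mul_left ?_ hσ
  rw [mul_add σ, mul_div_cancel₀ _ hσ.ne']
  nlinarith

theorem core (I : Ideal (MvPolynomial (Fin N) k)) [I.IsPrime]
    (hI : ∀ P ∈ I, ∀ e, homogeneousComponent e P ∈ I) {n d : ℕ} (hd : 0 < d)
    (hn : ringKrullDim (MvPolynomial (Fin N) k ⧸ I) = (n + 1 : ℕ))
    (F : Fin q → Fin s → MvPolynomial (Fin N) k) (hF : ∀ j i, (F j i).IsHomogeneous d)
    (h0 : ∀ j, ∃ i, F j i ∉ I) {w : Fin q → ℝ} (hw0 : ∀ j, 0 < w j) {μ E : ℝ} (hμ : 0 < μ)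
    (hE : 0 ≤ E) {r : Finset (Fin q) → ℕ} (hr0 : r ∅ ≤ n + 1)
    (hr : ∀ Z, r Z ≠ 0 → ∑ j ∈ Z, w j ≤ μ * (n + 1 - r Z) + E)
    (hc : ∀ Z : Finset (Fin q), ∃ G : Fin (r Z) → MvPolynomial (Fin N) k,
      (∀ i, (G i).IsHomogeneous d) ∧
      ∀ a, X a ∈ (I ⊔ Ideal.span ({P | ∃ j ∈ Z, ∃ i, F j i = P} ∪ Set.range G)).radical)
    {ε : ℝ} (hε : 0 < ε) :
    ∃ (Θ : MvPolynomial (Fin N) k) (e : ℕ), Θ.IsHomogeneous e ∧ Θ ∉ I ∧
      ∀ S : Finset (FinitePlace k), ∃ C : ℝ, ∀ x : Fin N → k, x ≠ 0 → (∀ P ∈ I, eval x P = 0) →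
        eval x Θ ≠ 0 → (∀ j, ∃ i, eval x (F j i) ≠ 0) ∧
        ∑ j, w j * ∑ p : Pl S, mu p * lam (av p) d (F j) x ≤
          (μ * (n + 1) + 2 * E + ε) * d * logHeight x + C := by
  classical
  choose G hG hX using hc
  choose ι hι using h0
  have hB : ∀ t, FiniteDimensional k (Bd I d ^ t :) := fun t => bd_pow I d t ▸ bd_fin I _
  have hU : ∀ j, Us I F j ≤ Bd I d := fun j =>
    Submodule.span_le.2 (Set.range_subset_iff.2 fun i => mem_bd.2 ⟨_, hF j i, rfl⟩)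
  choose e₀ he₀ using fun Z => rel hI hd (Y := {P | ∃ j ∈ Z, ∃ i, F j i = P} ∪ Set.range (G Z))
    (by
      rintro _ (⟨j, -, i, rfl⟩ | ⟨i, rfl⟩)
      exacts [hF j i, hG Z i]) (hX Z)
  obtain ⟨e, he⟩ := (Set.finite_range e₀).bddAbove
  have r1 : ∀ Z : Finset (Fin q), Bd I d ^ (e + 1) ≤ ((⨆ j ∈ Z, Us I F j) ⊔
      Submodule.span k (Set.range fun i => Ideal.Quotient.mk I (G Z i))) * Bd I d ^ e := fun Z => by
    refine (he₀ Z e (he ⟨Z, rfl⟩)).trans (mul_le_mul_left (Submodule.span_le.2 ?_) _)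
    rintro _ ⟨_, ⟨j, hj, i, rfl⟩ | ⟨i, rfl⟩, rfl⟩
    · exact Submodule.mem_sup_left (le_iSup₂ (f := fun j (_ : j ∈ Z) => Us I F j) j hj
        (Submodule.subset_span ⟨i, rfl⟩))
    · exact Submodule.mem_sup_right (Submodule.subset_span ⟨i, rfl⟩)
  have far : ∀ Z : Finset (Fin q), r Z = 0 →
      Bd I d ^ (e + 1) ≤ (⨆ j ∈ Z, Us I F j) * Bd I d ^ e := fun Z hZ => by
    refine (r1 Z).trans (mul_le_mul_left (sup_le le_rfl (Submodule.span_le.2 ?_)) _)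
    rintro _ ⟨i, -⟩
    exact absurd i.2 (by omega)
  obtain ⟨c, hc⟩ := indep I hn
  have hξ := hc.polynomial_aeval_of_transcendental (f := fun _ => Polynomial.X ^ d)
    fun _ => (Polynomial.transcendental_X k).pow hd
  have hH := box hξ hB fun i => mem_bd.2 ⟨X (c i) ^ d, isHomogeneous_X_pow _ _, by simp⟩
  obtain ⟨m, hm, hg⟩ := grow (fun t => finrank k (Bd I d ^ t :)) n e
    (n + 1 + ⌈e + (2 * (μ * (n + 1) + 2 * E) + ε) * (e + 1) / ε + 1⌉₊) hH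
    (η := min (ε / 2 / μ) (1 / 2)) (by positivity)
  have m1 : e + (2 * (μ * (n + 1) + 2 * E) + ε) * (e + 1) / ε + 1 ≤ m := Nat.ceil_le.1 (by omega)
  obtain ⟨Φ, hΦ⟩ : ∃ Φ : ℝ, Φ = ∑ t ∈ range m, (finrank k (Bd I d ^ t :) : ℝ) := ⟨_, rfl⟩
  obtain ⟨H, hH'⟩ : ∃ H, H = finrank k (Bd I d ^ m :) := ⟨_, rfl⟩
  rw [← hΦ, ← hH'] at hg
  have Φ0 : 0 < Φ := by
    have h1 := (hH 1).trans (sum_le_sum_of_subset (range_mono (show (n + 1) * 1 ≤ m by omega)))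
    rw [one_pow] at h1
    rw [hΦ, ← Nat.cast_sum]
    exact Nat.cast_pos.2 h1
  have η1 : min (ε / 2 / μ) (1 / 2) < 1 := (min_le_right _ _).trans_lt (by norm_num)
  have ν0 : (0 : ℝ) < (m - e) * H / Φ :=
    div_pos (lt_of_lt_of_le (mul_pos (by linarith [Nat.cast_nonneg (α := ℝ) n]) Φ0) hg) Φ0
  have fin : {a : Fin H → Fin q → ℕ | Adm (Bd I d) (Us I F) m a}.Finite :=
    (Set.finite_Iic fun _ _ => m).subset fun a ha i j =>
      (single_le_sum (fun _ _ => Nat.zero_le _) (mem_univ j)).trans (ha.1 i)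
  have ne : Adm (Bd I d) (Us I F) m (0 : Fin H → Fin q → ℕ) := by
    let b := Module.finBasisOfFinrankEq k (Bd I d ^ m :) hH'.symm
    exact ⟨fun i => by simp, fun i => b i,
      b.linearIndependent.map' (Bd I d ^ m).subtype (Submodule.ker_subtype _),
      fun i => by simp [Vm]⟩
  have ν1 : ((m : ℝ) - e) * H / Φ ≤ n + 1 := by
    obtain ⟨a', -, -, h3⟩ := aug hB hU ∅ (fun i => mem_bd.2 ⟨_, hG ∅ i, rfl⟩) (r1 ∅) ne
    have h4 := (Nat.cast_le (α := ℝ)).2 h3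
    have h5 : (r ∅ : ℝ) * Φ ≤ (n + 1) * Φ :=
      mul_le_mul_of_nonneg_right (by exact_mod_cast hr0) Φ0.le
    simp only [Nat.cast_add, Nat.cast_mul, Nat.cast_sum, ← hΦ, sum_empty, Nat.cast_zero] at h4
    rw [div_le_iff₀ Φ0]
    linarith
  have ν2 : μ * (n + 1 - ε / 2 / μ) ≤ μ * ((m - e) * H / Φ) :=
    mul_le_mul_of_nonneg_left ((sub_le_sub_left (min_le_left _ _) _).trans
      ((le_div_iff₀ Φ0).2 hg)) hμ.le
  rw [mul_sub, mul_div_cancel₀ _ hμ.ne'] at ν2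
  have ν3 : ∀ Z, r Z ≠ 0 → ∑ j ∈ Z, w j ≤
      μ * ((m - e) * H / Φ - r Z) + (E + μ * (n + 1 - (m - e) * H / Φ)) := fun Z hZ => by
    linarith [hr Z hZ]
  obtain ⟨σ, ω, σ0, hω, hs, hw⟩ := weights hw0 hμ
    (add_nonneg hE (mul_nonneg hμ.le (sub_nonneg.2 ν1))) ν0
    (fin.image fun a j => (∑ i, (a i j : ℝ)) / Φ) ⟨_, 0, ne, rfl⟩
    (by
      rintro _ ⟨a, -, rfl⟩ j
      exact div_nonneg (by positivity) Φ0.le)
    (fun Z => (m - e) * H / Φ - r Z) (fun Z hZ => ν3 Z fun h => by simp [h] at hZ)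
    (by
      rintro Z _ ⟨a, ha, rfl⟩
      obtain ⟨a', h1, h2, h3⟩ := aug hB hU Z (fun i => mem_bd.2 ⟨_, hG Z i, rfl⟩) (r1 Z) ha
      refine ⟨_, ⟨a', h1, rfl⟩, fun j hj => div_le_div_of_nonneg_right
        (sum_le_sum fun i _ => Nat.cast_le.2 (h2 i j hj)) Φ0.le, ?_⟩
      have h4 := (Nat.cast_le (α := ℝ)).2 h3
      simp only [Nat.cast_add, Nat.cast_mul, Nat.cast_sum, ← hΦ] at h4
      rw [← sum_div, le_div_iff₀ Φ0, sub_mul, div_mul_cancel₀ _ Φ0.ne']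
      linarith)
  have : Fintype {a : Fin H → Fin q → ℕ | Adm (Bd I d) (Us I F) m a} := fin.fintype
  choose v v1 v2 using fun τ : {a : Fin H → Fin q → ℕ | Adm (Bd I d) (Us I F) m a} => τ.2.2
  have m0 : (0 : ℝ) < m := lt_of_lt_of_le (by positivity) m1
  obtain ⟨Θ, D, t1, t2, t3⟩ := forms I (D := d * m) (hH'.trans (by rw [bd_pow])) v v1
    (fun τ i => bd_pow I d m ▸ vm_le hU (τ.2.1 i) (v2 τ i)) (one_div_pos.2 m0)
  refine ⟨Θ * ∏ j, F j (ι j), D + ∑ _j : Fin q, d,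
    t1.mul (IsHomogeneous.prod _ _ _ fun j _ => hF j _), fun h => ?_, fun S => ?_⟩
  · refine (Ideal.IsPrime.mem_or_mem ‹_› h).elim t2 fun h => ?_
    obtain ⟨j, -, hj⟩ := Ideal.IsPrime.prod_mem_iff.1 h
    exact hι j hj
  obtain ⟨C₁, g₁⟩ := t3 S
  choose c₂ g₂ using fun p : Pl S => core_loc (av p) hF far (fun τ => τ.2.1) v2 Φ0
    (fun j => mul_nonneg (hw0 j).le (hω j).1) fun A hA c hc => by
      obtain ⟨_, ⟨a, ha, rfl⟩, h⟩ := hw A (fun Y hY => ν3 Y (hA Y hY)) c hc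
      exact ⟨⟨a, ha⟩, h⟩
  choose c₃ g₃ using fun j => first (hF j (ι j)) S
  refine ⟨(C₁ / Φ + ∑ p, mu p * c₂ p + ∑ j, w j * (σ - ω j) * c₃ j) / σ, fun x hx hz h => ?_⟩
  rw [map_mul, map_prod, mul_ne_zero_iff, prod_ne_zero_iff] at h
  have k0 : ∀ j, ∃ i, eval x (F j i) ≠ 0 := fun j => ⟨_, h.2 j (mem_univ j)⟩
  choose τ hτ using fun p => g₂ p ⟨x, hz⟩ hx k0 (g₁ ⟨x, hz⟩ hx h.1 fun _ => ⟨0, ne⟩).1
  have k1 := div_le_div_of_nonneg_right (g₁ ⟨x, hz⟩ hx h.1 τ).2 Φ0.le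
  have k2 := sum_le_sum fun p (_ : p ∈ univ) =>
    mul_le_mul_of_nonneg_left (hτ p) (Nat.cast_nonneg (α := ℝ) (mu p))
  have k3 : ∀ j, ∑ p : Pl S, mu p * lam (av p) d (F j) x ≤ d * logHeight x + c₃ j := fun j => by
    refine le_trans (sum_le_sum fun p _ => mul_le_mul_of_nonneg_left ?_ (Nat.cast_nonneg _))
      (g₃ j x hx (h.2 j (mem_univ j)))
    obtain ⟨a, ha⟩ := Function.ne_iff.1 hx
    have h1 := (av p).pos (h.2 j (mem_univ j))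
    have h2 := pow_pos (((av p).pos ha).trans_le
      (le_ciSup (f := fun a => av p (x a)) (Finite.bddAbove_range _) a)) d
    have h3 := le_ciSup (f := fun i => av p (eval x (F j i))) (Finite.bddAbove_range _) (ι j)
    exact Real.log_le_log (div_pos h2 (h1.trans_le h3)) (div_le_div_of_nonneg_left h2.le h1 h3)
  have k4 := sum_le_sum fun j (_ : j ∈ univ) =>
    mul_le_mul_of_nonneg_left (k3 j) (mul_nonneg (hw0 j).le (sub_nonneg.2 (hω j).2))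
  refine ⟨k0, core_num Φ0 σ0
    (sum_nonneg fun j _ => mul_nonneg (hw0 j).le (sub_nonneg.2 (hω j).2)) hε
    (logHeight_nonneg x) (by positivity) m1 ν0 hs (by linarith) ?_⟩
  have k5 : ∑ p : Pl S, mu p * ∑ j, w j * ω j * lam (av p) d (F j) x =
      ∑ j, w j * ω j * ∑ p : Pl S, mu p * lam (av p) d (F j) x := by
    simp only [mul_sum]
    rw [sum_comm]
    exact sum_congr rfl fun j _ => sum_congr rfl fun p _ => by ring
  have k6 : σ * ∑ j, w j * ∑ p : Pl S, mu p * lam (av p) d (F j) x =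
      ∑ j, w j * ω j * ∑ p : Pl S, mu p * lam (av p) d (F j) x +
        ∑ j, w j * (σ - ω j) * ∑ p : Pl S, mu p * lam (av p) d (F j) x := by
    rw [← sum_add_distrib, mul_sum]
    exact sum_congr rfl fun j _ => by ring
  simp only [mul_add, sum_add_distrib, ← mul_div_assoc, ← sum_div, ← sum_mul] at k2 k4
  rw [add_div] at k1
  linarith

end Pool.Agent.Lib.MP_651af7_nt.Sn
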