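import Pool.Agent.Lib.MP_651af7_nt.Sn.Main

/-! The unweighted form of the core inequality. -/

namespace Pool.Agent.Lib.MP_651af7_nt.Sn

open MvPolynomial Finset Height NumberField Module
open Rt (Pl av mu)

variable {k : Type} [Field k] [NumberField k] {N q s : ℕ}

theorem core_plain (I : Ideal (MvPolynomial (Fin N) k)) [I.IsPrime]
    (hI : ∀ P ∈ I, ∀ e, homogeneousComponent e P ∈ I) {n L d : ℕ} (hd : 0 < d)
    (hn : ringKrullDim (MvPolynomial (Fin N) k ⧸ I) = (n + 1 : ℕ)) (hL : n + 1 ≤ L)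
    (F : Fin q → Fin s → MvPolynomial (Fin N) k) (hF : ∀ j i, (F j i).IsHomogeneous d)
    (h0 : ∀ j, ∃ i, F j i ∉ I)
    (hc : ∀ Z : Finset (Fin q), ∃ G : Fin (L - Z.card) → MvPolynomial (Fin N) k,
      (∀ i, (G i).IsHomogeneous d) ∧
      ∀ a, X a ∈ (I ⊔ Ideal.span ({P | ∃ j ∈ Z, ∃ i, F j i = P} ∪ Set.range G)).radical)
    {ε : ℝ} (hε : 0 < ε) :
    ∃ (Θ : MvPolynomial (Fin N) k) (e : ℕ), Θ.IsHomogeneous e ∧ Θ ∉ I ∧
      ∀ S : Finset (FinitePlace k), ∃ C : ℝ, ∀ x : Fin N → k, x ≠ 0 → (∀ P ∈ I, eval x P = 0) →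
        eval x Θ ≠ 0 → (∀ j, ∃ i, eval x (F j i) ≠ 0) ∧
        ∑ j, ∑ p : Pl S, mu p * lam (av p) d (F j) x ≤
          (2 * L - (n + 1) + ε) * d * logHeight x + C := by
  classical
  have hL' : (n : ℝ) + 1 ≤ L := by exact_mod_cast hL
  obtain ⟨Θ, e, h1, h2, h3⟩ := core I hI hd hn F hF h0 (w := fun _ => 1) (fun _ => one_pos)
    (μ := 1) (E := L - (n + 1)) one_pos (sub_nonneg.2 hL')
    (r := fun Z => if Z = ∅ then n + 1 else L - Z.card) (by simp)
    (fun Z hZ => by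
      split_ifs at hZ ⊢ with h
      · simp [h, hL']
      · rw [Nat.cast_sub (by omega)]
        simp only [sum_const, nsmul_eq_mul]
        linarith)
    (fun Z => by
      by_cases h : Z = ∅
      · rw [if_pos h]
        obtain ⟨G, g1, g2⟩ := cut hd (n + 1) I hI hn.le
        exact ⟨G, g1, fun a => Ideal.radical_mono
          (sup_le_sup_left (Ideal.span_mono Set.subset_union_right) _) (g2 a)⟩
      · rw [if_neg h]
        exact hc Z) hε
  refine ⟨Θ, e, h1, h2, fun S => (h3 S).imp fun C hC x hx hz h => ⟨(hC x hx hz h).1, ?_⟩⟩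
  have := (hC x hx hz h).2
  simp only [one_mul] at this
  convert this using 4
  ring

end Pool.Agent.Lib.MP_651af7_nt.Sn
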