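import Pool.Agent.Lib.MP_651af7_nt.Sn.Main

/-! Reduction to forms of one degree. -/

namespace Pool.Agent.Lib.MP_651af7_nt.Sn

open MvPolynomial Finset Height NumberField
open Rt (Pl av mu)

variable {k : Type} [Field k] [NumberField k] {N q s : ℕ}

theorem red_cut {I : Ideal (MvPolynomial (Fin N) k)}
    (hI : ∀ P ∈ I, ∀ e, homogeneousComponent e P ∈ I)
    {F : Fin q → Fin s → MvPolynomial (Fin N) k} {d : Fin q → ℕ}
    (hF : ∀ j i, (F j i).IsHomogeneous (d j)) (ρ : Fin q → ℕ) {D : ℕ} (hD : 0 < D)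
    {Z Z' : Finset (Fin q)} (hZ : Z' ⊆ Z) {r : ℕ}
    (h : ringKrullDim (MvPolynomial (Fin N) k ⧸
      (I ⊔ Ideal.span {P | ∃ j ∈ Z', ∃ i, F j i = P})) ≤ r) :
    ∃ G : Fin r → MvPolynomial (Fin N) k, (∀ i, (G i).IsHomogeneous D) ∧ ∀ a, X a ∈
      (I ⊔ Ideal.span ({P | ∃ j ∈ Z, ∃ i, F j i ^ ρ j = P} ∪ Set.range G)).radical := by
  obtain ⟨G, h1, h2⟩ := cut hD r _ (hom_sup hI (by
    rintro _ ⟨j, -, i, rfl⟩
    exact ⟨d j, hF j i⟩)) h
  refine ⟨G, h1, fun a => Ideal.radical_le_radical_iff.2 ?_ (h2 a)⟩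
  refine sup_le (sup_le (le_sup_left.trans Ideal.le_radical) (Ideal.span_le.2 ?_))
    (((Ideal.span_mono Set.subset_union_right).trans le_sup_right).trans Ideal.le_radical)
  rintro _ ⟨j, hj, i, rfl⟩
  exact ⟨ρ j, Ideal.mem_sup_right (Ideal.subset_span (Or.inl ⟨j, hZ hj, i, rfl⟩))⟩

theorem red_nat {x : WithBot ℕ∞} {n : ℕ} (h : x ≤ n) :
    ∃ r : ℕ, r ≤ n ∧ x ≤ r ∧ (r ≠ 0 → (r : WithBot ℕ∞) ≤ x) := by
  induction x using WithBot.recBotCoe with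
  | bot => exact ⟨0, n.zero_le, bot_le, fun e => (e rfl).elim⟩
  | coe x =>
    induction x using ENat.recTopCoe with
    | top => exact absurd (WithBot.coe_le_coe.1 h) (by simp)
    | coe x => exact ⟨x, by exact_mod_cast h, le_rfl, fun _ => le_rfl⟩

omit [NumberField k] in
theorem red_lam (w : AbsoluteValue k ℝ) (d : ℕ) {ρ : ℕ} (hρ : ρ ≠ 0)
    (F : Fin s → MvPolynomial (Fin N) k) (x : Fin N → k) :
    lam w (d * ρ) (fun i => F i ^ ρ) x =
      ρ * Real.log ((⨆ a, w (x a)) ^ d / ⨆ i, w (eval x (F i))) := by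
  rw [lam, ← Real.log_pow, div_pow, ← pow_mul,
    Real.iSup_pow_of_ne_zero (fun i => w.nonneg _) hρ]
  simp only [map_pow]

theorem main (I : Ideal (MvPolynomial (Fin N) k)) (hp : I.IsPrime)
    (hI : ∀ P ∈ I, ∀ e, homogeneousComponent e P ∈ I) {n : ℕ}
    (hn : ringKrullDim (MvPolynomial (Fin N) k ⧸ I) = (n + 1 : ℕ))
    (F : Fin q → Fin s → MvPolynomial (Fin N) k) (d : Fin q → ℕ) (hd : ∀ j, 0 < d j)
    (hF : ∀ j i, (F j i).IsHomogeneous (d j)) (h0 : ∀ j, ∃ i, F j i ∉ I)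
    (c : Fin q → ℝ) (hc : ∀ j, 0 < c j) (μ E : ℝ) (hμ : 0 < μ)
    (hl : ∀ (J : Finset (Fin q)) (r : ℕ), ((r + 1 : ℕ) : WithBot ℕ∞) ≤ ringKrullDim
      (MvPolynomial (Fin N) k ⧸ (I ⊔ Ideal.span {P | ∃ j ∈ J, ∃ i, F j i = P})) →
      ∑ j ∈ J, c j ≤ μ * (n - r) + E)
    (ε : ℝ) (hε : 0 < ε) :
    ∃ (Θ : MvPolynomial (Fin N) k) (e : ℕ), Θ.IsHomogeneous e ∧ Θ ∉ I ∧
      ∀ S : Finset (FinitePlace k), ∃ C : ℝ, ∀ x : Fin N → k, x ≠ 0 → (∀ P ∈ I, eval x P = 0) →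
        eval x Θ ≠ 0 → (∀ j, ∃ i, eval x (F j i) ≠ 0) ∧
        ∑ j, c j / d j * (∑ v : InfinitePlace k,
            v.mult * Real.log ((⨆ a, v (x a)) ^ d j / ⨆ i, v (eval x (F j i))) +
          ∑ v ∈ S, Real.log ((⨆ a, v (x a)) ^ d j / ⨆ i, v (eval x (F j i)))) ≤
        (μ * (n + 1) + 2 * E + ε) * logHeight x + C := by
  have hD : 0 < ∏ j, d j := Finset.prod_pos fun j _ => hd j
  obtain ⟨ρ, hρ⟩ : ∃ ρ : Fin q → ℕ, ∀ j, ∏ j, d j = d j * ρ j :=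
    ⟨fun j => (∏ j, d j) / d j, fun j =>
      (Nat.mul_div_cancel' (Finset.dvd_prod_of_mem d (Finset.mem_univ j))).symm⟩
  generalize ∏ j, d j = D at hD hρ
  have h1 : ∀ j, ρ j ≠ 0 := fun j e => by
    rw [hρ j, e, mul_zero] at hD
    exact lt_irrefl _ hD
  have hE : 0 ≤ E := by
    have e : I ⊔ Ideal.span {P | ∃ j ∈ (∅ : Finset (Fin q)), ∃ i, F j i = P} = I := by simp
    simpa using hl ∅ n (by rw [e, hn])
  choose r r1 r2 r3 using fun Z : Finset (Fin q) => red_nat ((ringKrullDim_le_of_surjective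
    (Ideal.Quotient.factor (le_sup_left : I ≤ I ⊔ Ideal.span {P | ∃ j ∈ Z, ∃ i, F j i = P}))
    (Ideal.Quotient.factor_surjective _)).trans hn.le)
  obtain ⟨Θ, e, a1, a2, a3⟩ := core I hI hD hn
    (fun j i => F j i ^ ρ j) (fun j i => hρ j ▸ (hF j i).pow (ρ j))
    (fun j => (h0 j).imp fun i hi h => hi (hp.mem_of_pow_mem _ h)) hc hμ hE (r1 ∅)
    (fun Z hZ => by
      obtain ⟨t, ht⟩ := Nat.exists_eq_add_one_of_ne_zero hZ
      have := hl Z t (ht ▸ r3 Z hZ)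
      rw [ht]
      push_cast
      linarith)
    (fun Z => red_cut hI hF ρ hD le_rfl (r2 Z)) hε
  refine ⟨Θ, e, a1, a2, fun S => ?_⟩
  obtain ⟨C, hC⟩ := a3 S
  refine ⟨C / D, fun x hx h2 h3 => ?_⟩
  obtain ⟨b1, b2⟩ := hC x hx h2 h3
  refine ⟨fun j => (b1 j).imp fun i hi h => hi (by rw [map_pow, h, zero_pow (h1 j)]), ?_⟩
  have hD' : (0 : ℝ) < D := Nat.cast_pos.2 hD
  refine le_of_mul_le_mul_right ?_ hD'
  rw [add_mul, div_mul_cancel₀ _ hD'.ne', Finset.sum_mul]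
  refine le_of_eq_of_le (Finset.sum_congr rfl fun j _ => ?_) (b2.trans (le_of_eq (by ring)))
  have h4 : (d j : ℝ) ≠ 0 := Nat.cast_ne_zero.2 (hd j).ne'
  have h5 : (D : ℝ) = d j * ρ j := by exact_mod_cast hρ j
  rw [MP_8865d3_nt.Mk.sum_mu_inf, h5, mul_right_comm, ← mul_assoc, div_mul_cancel₀ _ h4, mul_assoc,
    mul_add (ρ j : ℝ), Finset.mul_sum, Finset.mul_sum, ← Finset.sum_coe_sort S, hρ j]
  simp only [red_lam _ _ (h1 j)]
  congr 2
  exact Finset.sum_congr rfl fun v _ => mul_left_comm _ _ _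

theorem plain (I : Ideal (MvPolynomial (Fin N) k)) (hp : I.IsPrime)
    (hI : ∀ P ∈ I, ∀ e, homogeneousComponent e P ∈ I) {n l : ℕ}
    (hn : ringKrullDim (MvPolynomial (Fin N) k ⧸ I) = (n + 1 : ℕ))
    (F : Fin q → Fin s → MvPolynomial (Fin N) k) (d : Fin q → ℕ) (hd : ∀ j, 0 < d j)
    (hF : ∀ j i, (F j i).IsHomogeneous (d j)) (h0 : ∀ j, ∃ i, F j i ∉ I)
    (hl : ∀ J : Finset (Fin q), J.card ≤ l + 1 →
      ringKrullDim (MvPolynomial (Fin N) k ⧸ (I ⊔ Ideal.span {P | ∃ j ∈ J, ∃ i, F j i = P})) ≤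
        (l + 1 - J.card : ℕ))
    (ε : ℝ) (hε : 0 < ε) :
    ∃ (Θ : MvPolynomial (Fin N) k) (e : ℕ), Θ.IsHomogeneous e ∧ Θ ∉ I ∧
      ∀ S : Finset (FinitePlace k), ∃ C : ℝ, ∀ x : Fin N → k, x ≠ 0 → (∀ P ∈ I, eval x P = 0) →
        eval x Θ ≠ 0 → (∀ j, ∃ i, eval x (F j i) ≠ 0) ∧
        ∑ j, (∑ v : InfinitePlace k,
            v.mult * Real.log ((⨆ a, v (x a)) ^ d j / ⨆ i, v (eval x (F j i))) +
          ∑ v ∈ S, Real.log ((⨆ a, v (x a)) ^ d j / ⨆ i, v (eval x (F j i)))) / d j ≤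
        (2 * l - n + 1 + ε) * logHeight x + C := by
  have := main I hp hI hn F d hd hF h0 (fun _ => 1) (fun _ => one_pos) 1 (l - n) one_pos
    (fun J r h => by
      have h1 : J.card + r ≤ l := by
        rcases le_total J.card (l + 1) with h2 | h2
        · have h3 : r + 1 ≤ l + 1 - J.card := by exact_mod_cast h.trans (hl J h2)
          omega
        · obtain ⟨J', h3, h4⟩ := Finset.exists_subset_card_eq h2
          have h6 : {P | ∃ j ∈ J', ∃ i, F j i = P} ⊆ {P | ∃ j ∈ J, ∃ i, F j i = P} :=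
            fun P ⟨j, a, b⟩ => ⟨j, h3 a, b⟩
          have h5 : r + 1 ≤ l + 1 - J'.card := by
            exact_mod_cast h.trans ((ringKrullDim_le_of_surjective (Ideal.Quotient.factor
              (sup_le_sup_left (Ideal.span_mono h6) I))
              (Ideal.Quotient.factor_surjective _)).trans (hl J' h4.le))
          omega
      have h2 : (J.card + r : ℝ) ≤ l := by exact_mod_cast h1
      rw [sum_const, nsmul_eq_mul]
      linarith) ε hε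
  simp only [one_div, inv_mul_eq_div] at this
  rwa [show (1 * (n + 1) + 2 * (l - n) : ℝ) = 2 * l - n + 1 by ring] at this

end Pool.Agent.Lib.MP_651af7_nt.Sn
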