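import Pool.Agent.Lib.MP_8865d3_nt.Mk.Sub
import Pool.Agent.Lib.MP_651af7_nt.Sn.Dim

/-! The subspace theorem for independent families of forms on a variety. -/

namespace Pool.Agent.Lib.MP_651af7_nt.Sn

open MvPolynomial Finset Height NumberField Matrix Module
open Rt (Pl av mu)
open Es (vol)
open Ex (lx)

variable {k : Type} [Field k] [NumberField k] {N : ℕ}

/- `Fc.mainT` with `Mk.av0` as in `Mk.subK`, for the filter of the sets that contain the complement
of finitely many hyperplanes. -/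
theorem schmidt {r : ℕ} {T : Type} [Fintype T] (G : T → Matrix (Fin r) (Fin r) k)
    (hG : ∀ τ, (G τ).det ≠ 0) {ε : ℝ} (hε : 0 < ε) :
    ∃ W : Finset (Fin r → k), (∀ w ∈ W, w ≠ 0) ∧ ∀ S : Finset (FinitePlace k), ∃ C : ℝ,
      ∀ t : Fin r → k, (∀ w ∈ W, w ⬝ᵥ t ≠ 0) → ∀ c : Pl S → T,
        (∀ τ l, (G τ *ᵥ t) l ≠ 0) ∧
        vol (fun p l => lx (av p) t ((G (c p) *ᵥ t) l)) ≤ (r + ε) * logHeight t + C := by
  classical
  have H : Fc.HI (⨅ w : {w : Fin r → k // w ≠ 0}, Filter.principal {t | w.1 ⬝ᵥ t ≠ 0})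
      (fun _ (_ : Unit) => (1 : k)) id := fun α V j hj w hw h0 => by
    choose c hc using fun l => MP_8865d3_nt.Mk.const_of_alg (U := V) (u := w l) (by
      have : Algebra.IsAlgebraic k (IntermediateField.adjoin k
          (Set.range (As.gv V fun _ (_ : Unit) => (1 : k)))) :=
        IntermediateField.isAlgebraic_adjoin (by
          rintro _ ⟨a, rfl⟩
          exact isIntegral_algebraMap (x := (1 : k)))
      exact (As.mem_cl'.1 (hw l)).restrictScalars k)
    obtain rfl : w = As.gv V fun _ => c := funext hc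
    rw [As.gv_dot, Av.germ_eq_zero] at h0
    obtain rfl : c = 0 := by
      by_contra h
      have h1 : ∀ᶠ m in V, c ⬝ᵥ j m ≠ 0 :=
        hj.eventually (Filter.mem_iInf_of_mem ⟨c, h⟩ (Filter.mem_principal_self _))
      exact (h0.and h1).exists.elim fun m hm => hm.2 hm.1
    funext l
    exact Av.germ_eq_zero.2 (Filter.Eventually.of_forall fun _ => rfl)
  obtain ⟨W, hW, h⟩ := Fc.mainT (MP_8865d3_nt.Mk.av0 k) ()
    (univ.image fun u : T × Fin r => fun i => C (G u.1 u.2 i)) H hε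
  obtain ⟨W₀, hW₀⟩ := (Filter.mem_iInf_finite _).1 hW
  rw [Filter.iInf_principal_finset, Filter.mem_principal] at hW₀
  refine ⟨W₀.image Subtype.val ∪ univ.image fun u : T × Fin r => G u.1 u.2, fun w hw => ?_,
    fun S => ?_⟩
  · rcases mem_union.1 hw with hw | hw
    · obtain ⟨w, -, rfl⟩ := mem_image.1 hw
      exact w.2
    · obtain ⟨u, -, rfl⟩ := mem_image.1 hw
      exact fun h0 => hG u.1 (det_eq_zero_of_row_eq_zero u.2 (congrFun h0))
  choose C₀ hC using fun c : Pl S → T => h S (fun p => (G (c p)).map C)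
    fun p l => mem_image.2 ⟨(c p, l), mem_univ _, rfl⟩
  refine ⟨∑ c, |C₀ c|, fun t ht c => ?_⟩
  have hne : ∀ τ l, (G τ *ᵥ t) l ≠ 0 := fun τ l =>
    ht _ (mem_union_right _ (mem_image.2 ⟨(τ, l), mem_univ _, rfl⟩))
  have e : ∀ τ, ((G τ).map (C : k → MvPolynomial Unit k)).map (eval fun _ => (1 : k)) = G τ :=
    fun τ => by ext i j; simp
  have h1 := hC c t (hW₀ (Set.mem_iInter₂.2 fun w hw =>
    ht _ (mem_union_left _ (mem_image_of_mem _ hw))))
    ⟨rfl, fun f hf => by rw [Ideal.mem_bot.1 hf, map_zero]⟩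
  simp only [e, id] at h1
  have h2 := h1 (fun p => hG _) fun p l => hne _ l
  rw [show (fun _ : Unit => (1 : k)) = 1 from rfl, logHeight_one, zero_add] at h2
  have h3 := (le_abs_self (C₀ c)).trans
    (single_le_sum (fun c _ => abs_nonneg (C₀ c)) (mem_univ c))
  exact ⟨hne, by linarith⟩

/-- The value at a zero of `I`. -/
noncomputable def ev {I : Ideal (MvPolynomial (Fin N) k)}
    (x : {x : Fin N → k // ∀ P ∈ I, eval x P = 0}) : (MvPolynomial (Fin N) k ⧸ I) →ₐ[k] k :=
  Ideal.Quotient.liftₐ I (aeval x.1) x.2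

omit [NumberField k] in
theorem ev_mk {I : Ideal (MvPolynomial (Fin N) k)}
    (x : {x : Fin N → k // ∀ P ∈ I, eval x P = 0}) (P : MvPolynomial (Fin N) k) :
    ev x (Ideal.Quotient.mk I P) = eval x.1 P := rfl

/- A basis `β` of `Bd I D`, `t = ev x ∘ β`, `logHeight_eval_le'`, and `X i ^ D` is a combination of
the `β`. -/
theorem forms (I : Ideal (MvPolynomial (Fin N) k)) [I.IsPrime] {D H : ℕ}
    (hH : H = finrank k (Bd I D)) {T : Type} [Fintype T]
    (v : T → Fin H → MvPolynomial (Fin N) k ⧸ I) (h1 : ∀ τ, LinearIndependent k (v τ))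
    (h2 : ∀ τ i, v τ i ∈ Bd I D) {ε : ℝ} (hε : 0 < ε) :
    ∃ (Θ : MvPolynomial (Fin N) k) (e : ℕ), Θ.IsHomogeneous e ∧ Θ ∉ I ∧
      ∀ S : Finset (FinitePlace k), ∃ C : ℝ, ∀ x : {x : Fin N → k // ∀ P ∈ I, eval x P = 0},
        x.1 ≠ 0 → eval x.1 Θ ≠ 0 → ∀ c : Pl S → T, (∀ τ i, ev x (v τ i) ≠ 0) ∧
        ∑ p : Pl S, mu p * ∑ i, Real.log ((⨆ a, av p (x.1 a)) ^ D / av p (ev x (v (c p) i))) ≤
          (H + ε) * D * logHeight x.1 + C := by
  classical
  have := bd_fin I D
  let β : Basis (Fin H) k (Bd I D) := finBasisOfFinrankEq k _ hH.symm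
  choose B hB1 hB2 using fun j => mem_bd.1 (β j).2
  have key : ∀ (z : Bd I D) (x : {x : Fin N → k // ∀ P ∈ I, eval x P = 0}),
      ev x z = ∑ j, β.repr z j * eval x.1 (B j) := fun z x => by
    conv_lhs => rw [← β.sum_repr z]
    simp only [Submodule.coe_sum, Submodule.coe_smul, map_sum, map_smul, ← hB2, ev_mk, smul_eq_mul]
  let G : T → Matrix (Fin H) (Fin H) k := fun τ i j => β.repr ⟨v τ i, h2 τ i⟩ j
  have hG : ∀ τ, (G τ).det ≠ 0 := fun τ => by
    have a1 : LinearIndependent k fun i => (⟨v τ i, h2 τ i⟩ : Bd I D) :=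
      LinearIndependent.of_comp (Bd I D).subtype (h1 τ)
    have a2 := a1.map' β.equivFun.toLinearMap β.equivFun.ker
    exact ((isUnit_iff_isUnit_det _).1 (linearIndependent_rows_iff_isUnit.1 a2)).ne_zero
  have hGv : ∀ τ i (x : {x : Fin N → k // ∀ P ∈ I, eval x P = 0}),
      (G τ *ᵥ fun j => eval x.1 (B j)) i = ev x (v τ i) := fun τ i x =>
    (key ⟨v τ i, h2 τ i⟩ x).symm
  obtain ⟨W, hW, hS⟩ := schmidt G hG hε
  obtain ⟨C1, hC1⟩ := logHeight_eval_le' hB1
  refine ⟨∏ w ∈ W, ∑ j, C (w j) * B j, ∑ _w ∈ W, D, IsHomogeneous.prod _ _ _ fun w _ =>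
    IsHomogeneous.sum _ _ _ fun j _ => (hB1 j).C_mul _, fun h => ?_, fun S => ?_⟩
  · obtain ⟨w, hw, h⟩ := Ideal.IsPrime.prod_mem_iff.1 h
    have a1 : ((∑ j, w j • β j : Bd I D) : MvPolynomial (Fin N) k ⧸ I) = 0 := by
      rw [← Ideal.Quotient.eq_zero_iff_mem.2 h]
      simp only [Submodule.coe_sum, Submodule.coe_smul, ← hB2, map_sum, ← smul_eq_C_mul]
      rfl
    exact hW w hw (funext (Fintype.linearIndependent_iff.1 β.linearIndependent w
      (Subtype.ext a1)))
  obtain ⟨C0, hC0⟩ := hS S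
  let Y : Fin N → Bd I D := fun a =>
    ⟨Ideal.Quotient.mk I (X a ^ D), mem_bd.2 ⟨_, isHomogeneous_X_pow a D, rfl⟩⟩
  let M : Pl S → ℝ := fun p => 1 + ∑ a, ∑ j, av p (β.repr (Y a) j)
  have hM : ∀ p, 0 < M p := fun p => by positivity
  refine ⟨C0 + (H + ε) * C1 + ∑ p : Pl S, mu p * ∑ _i : Fin H, Real.log (M p),
    fun x hx hΘ c => ?_⟩
  obtain ⟨a1, a2⟩ := hC0 (fun j => eval x.1 (B j)) (fun w hw h => hΘ (by
    rw [map_prod]
    exact prod_eq_zero hw (by simpa [dotProduct] using h))) c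
  simp only [hGv] at a1
  simp only [vol, lx, hGv] at a2
  refine ⟨a1, ?_⟩
  have a3 : ∀ (p : Pl S) (i : Fin H),
      Real.log ((⨆ a, av p (x.1 a)) ^ D / av p (ev x (v (c p) i))) ≤ Real.log (M p) +
        Real.log ((⨆ j, av p (eval x.1 (B j))) / av p (ev x (v (c p) i))) := fun p i => by
    have b1 : (fun j => eval x.1 (B j)) ≠ 0 := fun h => a1 (c p) i (by
      rw [← hGv, h, mulVec_zero, Pi.zero_apply])
    have b2 := Es.sup_pos (av p) b1
    have b3 := Es.sup_pos (av p) hx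
    have b4 := (av p).pos (a1 (c p) i)
    have : Nonempty (Fin N) := (Function.ne_iff.1 hx).nonempty
    obtain ⟨a, ha⟩ := exists_eq_ciSup_of_finite (f := fun a => av p (x.1 a))
    have b5 : av p (x.1 a) ^ D ≤ M p * ⨆ j, av p (eval x.1 (B j)) := by
      have e := key (Y a) x
      rw [ev_mk, map_pow, eval_X] at e
      rw [← map_pow, e]
      refine ((av p).sum_le _ _).trans (le_trans (sum_le_sum (g := fun j =>
        av p (β.repr (Y a) j) * ⨆ j, av p (eval x.1 (B j))) fun j _ => ?_) ?_)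
      · rw [map_mul]
        exact mul_le_mul_of_nonneg_left (le_ciSup (f := fun j => av p (eval x.1 (B j)))
          (Finite.bddAbove_range _) j) ((av p).nonneg _)
      · rw [← sum_mul]
        refine mul_le_mul_of_nonneg_right ?_ b2.le
        have := single_le_sum (f := fun a => ∑ j, av p (β.repr (Y a) j))
          (fun a _ => by positivity) (mem_univ a)
        simp only [M]
        linarith
    rw [← Real.log_mul (hM p).ne' (by positivity), ← mul_div_assoc]
    refine Real.log_le_log (by positivity) (div_le_div_of_nonneg_right ?_ b4.le)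
    rwa [← ha]
  have a4 := mul_le_mul_of_nonneg_left (hC1 x.1) (show (0 : ℝ) ≤ H + ε by positivity)
  refine (sum_le_sum fun p _ => mul_le_mul_of_nonneg_left (sum_le_sum fun i _ => a3 p i)
    (Nat.cast_nonneg _)).trans ?_
  simp only [sum_add_distrib, mul_add] at a4 ⊢
  linarith

/- The vector of `P` and the `X i ^ d`; `Es.gsum_le_S`, the product formula. -/
theorem first {d : ℕ} {P : MvPolynomial (Fin N) k} (hP : P.IsHomogeneous d)
    (S : Finset (FinitePlace k)) : ∃ C : ℝ, ∀ x : Fin N → k, x ≠ 0 → eval x P ≠ 0 →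
      ∑ p : Pl S, mu p * Real.log ((⨆ a, av p (x a)) ^ d / av p (eval x P)) ≤
        d * logHeight x + C := by
  obtain ⟨C₀, hC⟩ := logHeight_eval_le' (N := d)
    (p := fun o : Option (Fin N) => o.elim P fun a => X a ^ d) (by
      rintro (_ | a)
      · exact hP
      · exact isHomogeneous_X_pow a d)
  refine ⟨C₀, fun x hx h0 => ?_⟩
  have h1 := hC x
  obtain ⟨y, hy⟩ : ∃ y, y = fun o : Option (Fin N) => eval x (o.elim P fun a => X a ^ d) :=
    ⟨_, rfl⟩
  rw [← hy] at h1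
  have y0 : y none = eval x P := by rw [hy]; rfl
  have y1 : ∀ a, y (some a) = x a ^ d := fun a => by rw [hy]; simp
  have hy0 : y ≠ 0 := fun h => h0 (y0 ▸ congrFun h none)
  have : Nonempty (Fin N) := (Function.ne_iff.1 hx).nonempty
  have h := Es.gsum_le_S S (Vj.finS_log (eval x P)) (Es.finS_sup y)
    (fun p => -Real.log ((⨆ a, av p (x a)) ^ d / av p (eval x P))) (fun p => ?_) fun v _ =>
      Real.log_le_log (v.1.pos h0) (y0 ▸ Es.le_sup_av v.1 y none)
  · rw [Es.gsum_sup hy0, Vj.gsum_log h0] at h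
    simp only [mul_neg, sum_neg_distrib] at h
    linarith
  · have a0 := pow_pos (Es.sup_pos (av p) hx) d
    have a1 : (⨆ a, av p (x a)) ^ d ≤ ⨆ o, av p (y o) := by
      obtain ⟨a, ha⟩ := exists_eq_ciSup_of_finite (f := fun a => av p (x a))
      rw [← ha, ← map_pow, ← y1]
      exact Es.le_sup_av _ y _
    rw [Real.log_div a0.ne' ((av p).pos h0).ne']
    linarith [Real.log_le_log a0 a1]

end Pool.Agent.Lib.MP_651af7_nt.Sn
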